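import Mathlib

/-! # The partitions of the numbers up to 13, and the horizontal strips -/

set_option autoImplicit false

namespace Pool.Agent.V8H2.SNP

/-- The partitions of `0`. -/
def pt0 : List (List ℕ) :=
  [[]]

/-- The partitions of `1`. -/
def pt1 : List (List ℕ) :=
  [[1]]

/-- The partitions of `2`. -/
def pt2 : List (List ℕ) :=
  [[2],
   [1, 1]]

/-- The partitions of `3`. -/
def pt3 : List (List ℕ) :=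
  [[3],
   [2, 1],
   [1, 1, 1]]

/-- The partitions of `4`. -/
def pt4 : List (List ℕ) :=
  [[4],
   [3, 1],
   [2, 2],
   [2, 1, 1],
   [1, 1, 1, 1]]

/-- The partitions of `5`. -/
def pt5 : List (List ℕ) :=
  [[5],
   [4, 1],
   [3, 2],
   [3, 1, 1],
   [2, 2, 1],
   [2, 1, 1, 1],
   [1, 1, 1, 1, 1]]

/-- The partitions of `6`. -/
def pt6 : List (List ℕ) :=
  [[6],
   [5, 1],
   [4, 2],
   [4, 1, 1],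
   [3, 3],
   [3, 2, 1],
   [3, 1, 1, 1],
   [2, 2, 2],
   [2, 2, 1, 1],
   [2, 1, 1, 1, 1],
   [1, 1, 1, 1, 1, 1]]

/-- The partitions of `7`. -/
def pt7 : List (List ℕ) :=
  [[7],
   [6, 1],
   [5, 2],
   [5, 1, 1],
   [4, 3],
   [4, 2, 1],
   [4, 1, 1, 1],
   [3, 3, 1],
   [3, 2, 2],
   [3, 2, 1, 1],
   [3, 1, 1, 1, 1],
   [2, 2, 2, 1],
   [2, 2, 1, 1, 1],
   [2, 1, 1, 1, 1, 1],
   [1, 1, 1, 1, 1, 1, 1]]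

/-- The partitions of `8`. -/
def pt8 : List (List ℕ) :=
  [[8],
   [7, 1],
   [6, 2],
   [6, 1, 1],
   [5, 3],
   [5, 2, 1],
   [5, 1, 1, 1],
   [4, 4],
   [4, 3, 1],
   [4, 2, 2],
   [4, 2, 1, 1],
   [4, 1, 1, 1, 1],
   [3, 3, 2],
   [3, 3, 1, 1],
   [3, 2, 2, 1],
   [3, 2, 1, 1, 1],
   [3, 1, 1, 1, 1, 1],
   [2, 2, 2, 2],
   [2, 2, 2, 1, 1],
   [2, 2, 1, 1, 1, 1],
   [2, 1, 1, 1, 1, 1, 1],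
   [1, 1, 1, 1, 1, 1, 1, 1]]

/-- The partitions of `9`. -/
def pt9 : List (List ℕ) :=
  [[9],
   [8, 1],
   [7, 2],
   [7, 1, 1],
   [6, 3],
   [6, 2, 1],
   [6, 1, 1, 1],
   [5, 4],
   [5, 3, 1],
   [5, 2, 2],
   [5, 2, 1, 1],
   [5, 1, 1, 1, 1],
   [4, 4, 1],
   [4, 3, 2],
   [4, 3, 1, 1],
   [4, 2, 2, 1],
   [4, 2, 1, 1, 1],
   [4, 1, 1, 1, 1, 1],
   [3, 3, 3],
   [3, 3, 2, 1],
   [3, 3, 1, 1, 1],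
   [3, 2, 2, 2],
   [3, 2, 2, 1, 1],
   [3, 2, 1, 1, 1, 1],
   [3, 1, 1, 1, 1, 1, 1],
   [2, 2, 2, 2, 1],
   [2, 2, 2, 1, 1, 1],
   [2, 2, 1, 1, 1, 1, 1],
   [2, 1, 1, 1, 1, 1, 1, 1],
   [1, 1, 1, 1, 1, 1, 1, 1, 1]]

/-- The partitions of `10`. -/
def pt10 : List (List ℕ) :=
  [[10],
   [9, 1],
   [8, 2],
   [8, 1, 1],
   [7, 3],
   [7, 2, 1],
   [7, 1, 1, 1],
   [6, 4],
   [6, 3, 1],
   [6, 2, 2],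
   [6, 2, 1, 1],
   [6, 1, 1, 1, 1],
   [5, 5],
   [5, 4, 1],
   [5, 3, 2],
   [5, 3, 1, 1],
   [5, 2, 2, 1],
   [5, 2, 1, 1, 1],
   [5, 1, 1, 1, 1, 1],
   [4, 4, 2],
   [4, 4, 1, 1],
   [4, 3, 3],
   [4, 3, 2, 1],
   [4, 3, 1, 1, 1],
   [4, 2, 2, 2],
   [4, 2, 2, 1, 1],
   [4, 2, 1, 1, 1, 1],
   [4, 1, 1, 1, 1, 1, 1],
   [3, 3, 3, 1],
   [3, 3, 2, 2],
   [3, 3, 2, 1, 1],
   [3, 3, 1, 1, 1, 1],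
   [3, 2, 2, 2, 1],
   [3, 2, 2, 1, 1, 1],
   [3, 2, 1, 1, 1, 1, 1],
   [3, 1, 1, 1, 1, 1, 1, 1],
   [2, 2, 2, 2, 2],
   [2, 2, 2, 2, 1, 1],
   [2, 2, 2, 1, 1, 1, 1],
   [2, 2, 1, 1, 1, 1, 1, 1],
   [2, 1, 1, 1, 1, 1, 1, 1, 1],
   [1, 1, 1, 1, 1, 1, 1, 1, 1, 1]]

/-- The partitions of `11`. -/
def pt11 : List (List ℕ) :=
  [[11],
   [10, 1],
   [9, 2],
   [9, 1, 1],
   [8, 3],
   [8, 2, 1],
   [8, 1, 1, 1],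
   [7, 4],
   [7, 3, 1],
   [7, 2, 2],
   [7, 2, 1, 1],
   [7, 1, 1, 1, 1],
   [6, 5],
   [6, 4, 1],
   [6, 3, 2],
   [6, 3, 1, 1],
   [6, 2, 2, 1],
   [6, 2, 1, 1, 1],
   [6, 1, 1, 1, 1, 1],
   [5, 5, 1],
   [5, 4, 2],
   [5, 4, 1, 1],
   [5, 3, 3],
   [5, 3, 2, 1],
   [5, 3, 1, 1, 1],
   [5, 2, 2, 2],
   [5, 2, 2, 1, 1],
   [5, 2, 1, 1, 1, 1],
   [5, 1, 1, 1, 1, 1, 1],
   [4, 4, 3],
   [4, 4, 2, 1],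
   [4, 4, 1, 1, 1],
   [4, 3, 3, 1],
   [4, 3, 2, 2],
   [4, 3, 2, 1, 1],
   [4, 3, 1, 1, 1, 1],
   [4, 2, 2, 2, 1],
   [4, 2, 2, 1, 1, 1],
   [4, 2, 1, 1, 1, 1, 1],
   [4, 1, 1, 1, 1, 1, 1, 1],
   [3, 3, 3, 2],
   [3, 3, 3, 1, 1],
   [3, 3, 2, 2, 1],
   [3, 3, 2, 1, 1, 1],
   [3, 3, 1, 1, 1, 1, 1],
   [3, 2, 2, 2, 2],
   [3, 2, 2, 2, 1, 1],
   [3, 2, 2, 1, 1, 1, 1],
   [3, 2, 1, 1, 1, 1, 1, 1],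
   [3, 1, 1, 1, 1, 1, 1, 1, 1],
   [2, 2, 2, 2, 2, 1],
   [2, 2, 2, 2, 1, 1, 1],
   [2, 2, 2, 1, 1, 1, 1, 1],
   [2, 2, 1, 1, 1, 1, 1, 1, 1],
   [2, 1, 1, 1, 1, 1, 1, 1, 1, 1],
   [1, 1, 1, 1, 1, 1, 1, 1, 1, 1, 1]]

/-- The partitions of `12`. -/
def pt12 : List (List ℕ) :=
  [[12],
   [11, 1],
   [10, 2],
   [10, 1, 1],
   [9, 3],
   [9, 2, 1],
   [9, 1, 1, 1],
   [8, 4],
   [8, 3, 1],
   [8, 2, 2],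
   [8, 2, 1, 1],
   [8, 1, 1, 1, 1],
   [7, 5],
   [7, 4, 1],
   [7, 3, 2],
   [7, 3, 1, 1],
   [7, 2, 2, 1],
   [7, 2, 1, 1, 1],
   [7, 1, 1, 1, 1, 1],
   [6, 6],
   [6, 5, 1],
   [6, 4, 2],
   [6, 4, 1, 1],
   [6, 3, 3],
   [6, 3, 2, 1],
   [6, 3, 1, 1, 1],
   [6, 2, 2, 2],
   [6, 2, 2, 1, 1],
   [6, 2, 1, 1, 1, 1],
   [6, 1, 1, 1, 1, 1, 1],
   [5, 5, 2],
   [5, 5, 1, 1],
   [5, 4, 3],
   [5, 4, 2, 1],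
   [5, 4, 1, 1, 1],
   [5, 3, 3, 1],
   [5, 3, 2, 2],
   [5, 3, 2, 1, 1],
   [5, 3, 1, 1, 1, 1],
   [5, 2, 2, 2, 1],
   [5, 2, 2, 1, 1, 1],
   [5, 2, 1, 1, 1, 1, 1],
   [5, 1, 1, 1, 1, 1, 1, 1],
   [4, 4, 4],
   [4, 4, 3, 1],
   [4, 4, 2, 2],
   [4, 4, 2, 1, 1],
   [4, 4, 1, 1, 1, 1],
   [4, 3, 3, 2],
   [4, 3, 3, 1, 1],
   [4, 3, 2, 2, 1],
   [4, 3, 2, 1, 1, 1],
   [4, 3, 1, 1, 1, 1, 1],
   [4, 2, 2, 2, 2],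
   [4, 2, 2, 2, 1, 1],
   [4, 2, 2, 1, 1, 1, 1],
   [4, 2, 1, 1, 1, 1, 1, 1],
   [4, 1, 1, 1, 1, 1, 1, 1, 1],
   [3, 3, 3, 3],
   [3, 3, 3, 2, 1],
   [3, 3, 3, 1, 1, 1],
   [3, 3, 2, 2, 2],
   [3, 3, 2, 2, 1, 1],
   [3, 3, 2, 1, 1, 1, 1],
   [3, 3, 1, 1, 1, 1, 1, 1],
   [3, 2, 2, 2, 2, 1],
   [3, 2, 2, 2, 1, 1, 1],
   [3, 2, 2, 1, 1, 1, 1, 1],
   [3, 2, 1, 1, 1, 1, 1, 1, 1],
   [3, 1, 1, 1, 1, 1, 1, 1, 1, 1],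
   [2, 2, 2, 2, 2, 2],
   [2, 2, 2, 2, 2, 1, 1],
   [2, 2, 2, 2, 1, 1, 1, 1],
   [2, 2, 2, 1, 1, 1, 1, 1, 1],
   [2, 2, 1, 1, 1, 1, 1, 1, 1, 1],
   [2, 1, 1, 1, 1, 1, 1, 1, 1, 1, 1],
   [1, 1, 1, 1, 1, 1, 1, 1, 1, 1, 1, 1]]

/-- The partitions of `13`. -/
def pt13 : List (List ℕ) :=
  [[13],
   [12, 1],
   [11, 2],
   [11, 1, 1],
   [10, 3],
   [10, 2, 1],
   [10, 1, 1, 1],
   [9, 4],
   [9, 3, 1],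
   [9, 2, 2],
   [9, 2, 1, 1],
   [9, 1, 1, 1, 1],
   [8, 5],
   [8, 4, 1],
   [8, 3, 2],
   [8, 3, 1, 1],
   [8, 2, 2, 1],
   [8, 2, 1, 1, 1],
   [8, 1, 1, 1, 1, 1],
   [7, 6],
   [7, 5, 1],
   [7, 4, 2],
   [7, 4, 1, 1],
   [7, 3, 3],
   [7, 3, 2, 1],
   [7, 3, 1, 1, 1],
   [7, 2, 2, 2],
   [7, 2, 2, 1, 1],
   [7, 2, 1, 1, 1, 1],
   [7, 1, 1, 1, 1, 1, 1],
   [6, 6, 1],
   [6, 5, 2],
   [6, 5, 1, 1],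
   [6, 4, 3],
   [6, 4, 2, 1],
   [6, 4, 1, 1, 1],
   [6, 3, 3, 1],
   [6, 3, 2, 2],
   [6, 3, 2, 1, 1],
   [6, 3, 1, 1, 1, 1],
   [6, 2, 2, 2, 1],
   [6, 2, 2, 1, 1, 1],
   [6, 2, 1, 1, 1, 1, 1],
   [6, 1, 1, 1, 1, 1, 1, 1],
   [5, 5, 3],
   [5, 5, 2, 1],
   [5, 5, 1, 1, 1],
   [5, 4, 4],
   [5, 4, 3, 1],
   [5, 4, 2, 2],
   [5, 4, 2, 1, 1],
   [5, 4, 1, 1, 1, 1],
   [5, 3, 3, 2],
   [5, 3, 3, 1, 1],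
   [5, 3, 2, 2, 1],
   [5, 3, 2, 1, 1, 1],
   [5, 3, 1, 1, 1, 1, 1],
   [5, 2, 2, 2, 2],
   [5, 2, 2, 2, 1, 1],
   [5, 2, 2, 1, 1, 1, 1],
   [5, 2, 1, 1, 1, 1, 1, 1],
   [5, 1, 1, 1, 1, 1, 1, 1, 1],
   [4, 4, 4, 1],
   [4, 4, 3, 2],
   [4, 4, 3, 1, 1],
   [4, 4, 2, 2, 1],
   [4, 4, 2, 1, 1, 1],
   [4, 4, 1, 1, 1, 1, 1],
   [4, 3, 3, 3],
   [4, 3, 3, 2, 1],
   [4, 3, 3, 1, 1, 1],
   [4, 3, 2, 2, 2],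
   [4, 3, 2, 2, 1, 1],
   [4, 3, 2, 1, 1, 1, 1],
   [4, 3, 1, 1, 1, 1, 1, 1],
   [4, 2, 2, 2, 2, 1],
   [4, 2, 2, 2, 1, 1, 1],
   [4, 2, 2, 1, 1, 1, 1, 1],
   [4, 2, 1, 1, 1, 1, 1, 1, 1],
   [4, 1, 1, 1, 1, 1, 1, 1, 1, 1],
   [3, 3, 3, 3, 1],
   [3, 3, 3, 2, 2],
   [3, 3, 3, 2, 1, 1],
   [3, 3, 3, 1, 1, 1, 1],
   [3, 3, 2, 2, 2, 1],
   [3, 3, 2, 2, 1, 1, 1],
   [3, 3, 2, 1, 1, 1, 1, 1],
   [3, 3, 1, 1, 1, 1, 1, 1, 1],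
   [3, 2, 2, 2, 2, 2],
   [3, 2, 2, 2, 2, 1, 1],
   [3, 2, 2, 2, 1, 1, 1, 1],
   [3, 2, 2, 1, 1, 1, 1, 1, 1],
   [3, 2, 1, 1, 1, 1, 1, 1, 1, 1],
   [3, 1, 1, 1, 1, 1, 1, 1, 1, 1, 1],
   [2, 2, 2, 2, 2, 2, 1],
   [2, 2, 2, 2, 2, 1, 1, 1],
   [2, 2, 2, 2, 1, 1, 1, 1, 1],
   [2, 2, 2, 1, 1, 1, 1, 1, 1, 1],
   [2, 2, 1, 1, 1, 1, 1, 1, 1, 1, 1],
   [2, 1, 1, 1, 1, 1, 1, 1, 1, 1, 1, 1],
   [1, 1, 1, 1, 1, 1, 1, 1, 1, 1, 1, 1, 1]]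

/-- The partitions of `n`. -/
def PT : List (List (List ℕ)) := [pt0, pt1, pt2, pt3, pt4, pt5, pt6, pt7, pt8, pt9, pt10, pt11,
     pt12, pt13]

/-- For every `j` and every partition `ν` of `0 - j` the gaps between the positions of the
partitions `μ` of `0` such that `μ / ν` is a horizontal strip. -/
def gp0 : List (List (List ℕ)) :=
  [[[0]]]

/-- For every `j` and every partition `ν` of `1 - j` the gaps between the positions of the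
partitions `μ` of `1` such that `μ / ν` is a horizontal strip. -/
def gp1 : List (List (List ℕ)) :=
  [[[0]],
   [[0]]]

/-- For every `j` and every partition `ν` of `2 - j` the gaps between the positions of the
partitions `μ` of `2` such that `μ / ν` is a horizontal strip. -/
def gp2 : List (List (List ℕ)) :=
  [[[0], [1]],
   [[0, 0]],
   [[0]]]

/-- For every `j` and every partition `ν` of `3 - j` the gaps between the positions of the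
partitions `μ` of `3` such that `μ / ν` is a horizontal strip. -/
def gp3 : List (List (List ℕ)) :=
  [[[0], [1], [2]],
   [[0, 0], [1, 0]],
   [[0, 0]],
   [[0]]]

/-- For every `j` and every partition `ν` of `4 - j` the gaps between the positions of the
partitions `μ` of `4` such that `μ / ν` is a horizontal strip. -/
def gp4 : List (List (List ℕ)) :=
  [[[0], [1], [2], [3], [4]],
   [[0, 0], [1, 0, 0], [3, 0]],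
   [[0, 0, 0], [1, 1]],
   [[0, 0]],
   [[0]]]

/-- For every `j` and every partition `ν` of `5 - j` the gaps between the positions of the
partitions `μ` of `5` such that `μ / ν` is a horizontal strip. -/
def gp5 : List (List (List ℕ)) :=
  [[[0], [1], [2], [3], [4], [5], [6]],
   [[0, 0], [1, 0, 0], [2, 1], [3, 0, 0], [5, 0]],
   [[0, 0, 0], [1, 0, 0, 0], [3, 1]],
   [[0, 0, 0], [1, 1]],
   [[0, 0]],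
   [[0]]]

/-- For every `j` and every partition `ν` of `6 - j` the gaps between the positions of the
partitions `μ` of `6` such that `μ / ν` is a horizontal strip. -/
def gp6 : List (List (List ℕ)) :=
  [[[0], [1], [2], [3], [4], [5], [6], [7], [8], [9], [10]],
   [[0, 0], [1, 0, 0], [2, 1, 0], [3, 1, 0], [5, 1, 0], [6, 1, 0], [9, 0]],
   [[0, 0, 0], [1, 0, 0, 0, 0], [2, 2, 1], [3, 1, 0, 1], [6, 2]],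
   [[0, 0, 0, 1], [1, 0, 0, 1], [3, 2]],
   [[0, 0, 0], [1, 1]],
   [[0, 0]],
   [[0]]]

/-- For every `j` and every partition `ν` of `7 - j` the gaps between the positions of the
partitions `μ` of `7` such that `μ / ν` is a horizontal strip. -/
def gp7 : List (List (List ℕ)) :=
  [[[0], [1], [2], [3], [4], [5], [6], [7], [8], [9], [10], [11], [12], [13], [14]],
   [[0, 0], [1, 0, 0], [2, 1, 0], [3, 1, 0], [4, 2], [5, 1, 0, 0], [6, 2, 0], [8, 2], [9, 1, 0],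
     [10, 1, 0], [13, 0]],
   [[0, 0, 0], [1, 0, 0, 0, 0], [2, 1, 0, 1, 0], [3, 1, 0, 0, 1], [5, 2, 0, 1], [6, 2, 0, 1],
     [10, 2]],
   [[0, 0, 0, 1], [1, 0, 0, 0, 0, 1], [2, 2, 2], [3, 1, 0, 2], [6, 3]],
   [[0, 0, 0, 1], [1, 0, 0, 1], [3, 2]],
   [[0, 0, 0], [1, 1]],
   [[0, 0]],
   [[0]]]

/-- For every `j` and every partition `ν` of `8 - j` the gaps between the positions of the
partitions `μ` of `8` such that `μ / ν` is a horizontal strip. -/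
def gp8 : List (List (List ℕ)) :=
  [[[0], [1], [2], [3], [4], [5], [6], [7], [8], [9], [10], [11], [12], [13], [14], [15], [16],
     [17], [18], [19], [20], [21]],
   [[0, 0], [1, 0, 0], [2, 1, 0], [3, 1, 0], [4, 2, 0], [5, 2, 0, 0], [6, 3, 0], [8, 3, 0], [9,
     2, 1], [10, 2, 0, 0], [11, 3, 0], [14, 2, 0], [15, 2, 0], [16, 2, 0], [20, 0]],
   [[0, 0, 0], [1, 0, 0, 0, 0], [2, 1, 0, 1, 0, 0], [3, 1, 0, 1, 1], [4, 3, 3], [5, 2, 0, 0, 1,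
     0, 0], [6, 3, 0, 1, 1], [9, 4, 2], [10, 3, 0, 2], [11, 3, 0, 2], [16, 3]],
   [[0, 0, 0, 1], [1, 0, 0, 0, 0, 1, 0], [2, 1, 0, 2, 0, 2], [3, 1, 0, 1, 1, 2], [5, 3, 0, 3],
     [6, 3, 0, 3], [11, 4]],
   [[0, 0, 0, 1, 2], [1, 0, 0, 0, 0, 2], [2, 2, 3], [3, 1, 0, 3], [6, 4]],
   [[0, 0, 0, 1], [1, 0, 0, 1], [3, 2]],
   [[0, 0, 0], [1, 1]],
   [[0, 0]],
   [[0]]]

/-- For every `j` and every partition `ν` of `9 - j` the gaps between the positions of the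
partitions `μ` of `9` such that `μ / ν` is a horizontal strip. -/
def gp9 : List (List (List ℕ)) :=
  [[[0], [1], [2], [3], [4], [5], [6], [7], [8], [9], [10], [11], [12], [13], [14], [15], [16],
     [17], [18], [19], [20], [21], [22], [23], [24], [25], [26], [27], [28], [29]],
   [[0, 0], [1, 0, 0], [2, 1, 0], [3, 1, 0], [4, 2, 0], [5, 2, 0, 0], [6, 3, 0], [7, 4], [8, 3,
     0, 0], [9, 3, 1], [10, 3, 0, 0], [11, 4, 0], [13, 4, 0], [14, 4, 0], [15, 3, 1, 0], [16, 3,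
     1, 0], [17, 5, 0], [21, 3], [22, 2, 0], [23, 2, 0], [24, 2, 0], [28, 0]],
   [[0, 0, 0], [1, 0, 0, 0, 0], [2, 1, 0, 1, 0, 0], [3, 1, 0, 1, 1], [4, 2, 0, 3, 0], [5, 2, 0,
     0, 1, 0, 0, 0], [6, 3, 0, 2, 1], [8, 4, 0, 3, 0], [9, 3, 1, 3, 1], [10, 3, 0, 0, 2, 0, 1],
     [11, 4, 0, 2, 2], [15, 5, 0, 2], [16, 5, 0, 2], [17, 5, 0, 2], [24, 3]],
   [[0, 0, 0, 1], [1, 0, 0, 0, 0, 1, 0], [2, 1, 0, 1, 0, 0, 2, 0], [3, 1, 0, 1, 1, 1, 1], [4, 3,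
     4, 4], [5, 2, 0, 0, 2, 0, 0, 3], [6, 3, 0, 2, 1, 3], [9, 5, 5], [10, 4, 0, 5], [11, 4, 0,
     5], [17, 6]],
   [[0, 0, 0, 1, 2], [1, 0, 0, 0, 0, 1, 0, 3], [2, 1, 0, 2, 0, 3], [3, 1, 0, 1, 1, 3], [5, 3, 0,
     4], [6, 3, 0, 4], [11, 5]],
   [[0, 0, 0, 1, 2], [1, 0, 0, 0, 0, 2], [2, 2, 3], [3, 1, 0, 3], [6, 4]],
   [[0, 0, 0, 1], [1, 0, 0, 1], [3, 2]],
   [[0, 0, 0], [1, 1]],
   [[0, 0]],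
   [[0]]]

/-- For every `j` and every partition `ν` of `10 - j` the gaps between the positions of the
partitions `μ` of `10` such that `μ / ν` is a horizontal strip. -/
def gp10 : List (List (List ℕ)) :=
  [[[0], [1], [2], [3], [4], [5], [6], [7], [8], [9], [10], [11], [12], [13], [14], [15], [16],
     [17], [18], [19], [20], [21], [22], [23], [24], [25], [26], [27], [28], [29], [30], [31],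
     [32], [33], [34], [35], [36], [37], [38], [39], [40], [41]],
   [[0, 0], [1, 0, 0], [2, 1, 0], [3, 1, 0], [4, 2, 0], [5, 2, 0, 0], [6, 3, 0], [7, 4, 0], [8,
     4, 0, 0], [9, 4, 1], [10, 4, 0, 0], [11, 5, 0], [13, 5, 0], [14, 4, 1, 0], [15, 4, 1, 0],
     [16, 5, 1, 0], [17, 5, 1, 0], [18, 7, 0], [21, 6], [22, 5, 0, 0], [23, 6, 0], [24, 4, 2],
     [25, 4, 1, 0], [26, 4, 1, 0], [27, 6, 0], [32, 3, 0], [33, 3, 0], [34, 3, 0], [35, 3, 0],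
     [40, 0]],
   [[0, 0, 0], [1, 0, 0, 0, 0], [2, 1, 0, 1, 0, 0], [3, 1, 0, 1, 1], [4, 2, 0, 3, 0, 0], [5, 2,
     0, 0, 2, 0, 0, 0], [6, 3, 0, 3, 1], [7, 5, 5], [8, 4, 0, 0, 3, 0, 0, 0], [9, 4, 1, 2, 2, 1],
     [10, 4, 0, 0, 2, 1, 0, 1], [11, 5, 0, 4, 2], [14, 6, 0, 5, 0], [15, 6, 0, 4, 1], [16, 5, 1,
     0, 3, 0, 1], [17, 5, 1, 0, 3, 0, 1], [18, 7, 0, 3, 2], [24, 7, 3], [25, 6, 0, 3], [26, 6, 0,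
     3], [27, 6, 0, 3], [35, 4]],
   [[0, 0, 0, 1], [1, 0, 0, 0, 0, 1, 0], [2, 1, 0, 1, 0, 0, 2, 0, 0], [3, 1, 0, 1, 1, 2, 1], [4,
     2, 0, 4, 0, 4, 1], [5, 2, 0, 0, 2, 0, 0, 0, 2, 0, 1], [6, 3, 0, 3, 1, 2, 2], [8, 5, 0, 5, 0,
     5], [9, 4, 1, 5, 1, 4], [10, 4, 0, 0, 4, 0, 1, 4], [11, 5, 0, 4, 2, 4], [16, 7, 0, 6], [17,
     7, 0, 6], [18, 7, 0, 6], [27, 7]],
   [[0, 0, 0, 1, 2], [1, 0, 0, 0, 0, 1, 0, 3, 0], [2, 1, 0, 1, 0, 0, 3, 0, 4], [3, 1, 0, 1, 1, 2,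
     1, 4], [4, 3, 5, 6], [5, 2, 0, 0, 3, 0, 0, 5], [6, 3, 0, 3, 1, 5], [9, 6, 7], [10, 5, 0, 7],
     [11, 5, 0, 7], [18, 8]],
   [[0, 0, 0, 1, 2, 4], [1, 0, 0, 0, 0, 1, 0, 4], [2, 1, 0, 2, 0, 4], [3, 1, 0, 1, 1, 4], [5, 3,
     0, 5], [6, 3, 0, 5], [11, 6]],
   [[0, 0, 0, 1, 2], [1, 0, 0, 0, 0, 2], [2, 2, 3], [3, 1, 0, 3], [6, 4]],
   [[0, 0, 0, 1], [1, 0, 0, 1], [3, 2]],
   [[0, 0, 0], [1, 1]],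
   [[0, 0]],
   [[0]]]

/-- For every `j` and every partition `ν` of `11 - j` the gaps between the positions of the
partitions `μ` of `11` such that `μ / ν` is a horizontal strip. -/
def gp11 : List (List (List ℕ)) :=
  [[[0], [1], [2], [3], [4], [5], [6], [7], [8], [9], [10], [11], [12], [13], [14], [15], [16],
     [17], [18], [19], [20], [21], [22], [23], [24], [25], [26], [27], [28], [29], [30], [31],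
     [32], [33], [34], [35], [36], [37], [38], [39], [40], [41], [42], [43], [44], [45], [46],
     [47], [48], [49], [50], [51], [52], [53], [54], [55]],
   [[0, 0], [1, 0, 0], [2, 1, 0], [3, 1, 0], [4, 2, 0], [5, 2, 0, 0], [6, 3, 0], [7, 4, 0], [8,
     4, 0, 0], [9, 4, 1], [10, 4, 0, 0], [11, 5, 0], [12, 6], [13, 5, 0, 0], [14, 5, 1, 0], [15,
     5, 1, 0], [16, 6, 1, 0], [17, 6, 1, 0], [18, 8, 0], [20, 8, 0], [21, 8, 0], [22, 6, 2], [23,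
     6, 1, 0, 0], [24, 6, 2, 0], [25, 7, 2], [26, 7, 1, 0], [27, 7, 1, 0], [28, 9, 0], [32, 7,
     0], [33, 6, 1], [34, 6, 0, 0], [35, 7, 0], [36, 5, 2, 0], [37, 5, 2, 0], [38, 5, 2, 0], [39,
     8, 0], [45, 4], [46, 3, 0], [47, 3, 0], [48, 3, 0], [49, 3, 0], [54, 0]],
   [[0, 0, 0], [1, 0, 0, 0, 0], [2, 1, 0, 1, 0, 0], [3, 1, 0, 1, 1], [4, 2, 0, 3, 0, 0], [5, 2,
     0, 0, 2, 0, 0, 0], [6, 3, 0, 3, 1], [7, 4, 0, 5, 0], [8, 4, 0, 0, 3, 0, 0, 0, 0], [9, 4, 1,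
     3, 2, 1], [10, 4, 0, 0, 3, 1, 0, 1], [11, 5, 0, 5, 2], [13, 6, 0, 7, 0], [14, 5, 1, 0, 5, 0,
     1, 0], [15, 5, 1, 0, 5, 0, 0, 1], [16, 6, 1, 0, 3, 2, 0, 1], [17, 6, 1, 0, 3, 2, 0, 1], [18,
     8, 0, 6, 2], [22, 9, 7], [23, 8, 0, 0, 5, 0, 0], [24, 9, 0, 5, 1], [25, 7, 2, 5, 2], [26, 7,
     1, 0, 4, 0, 2], [27, 7, 1, 0, 4, 0, 2], [28, 9, 0, 4, 3], [36, 8, 0, 3], [37, 8, 0, 3], [38,
     8, 0, 3], [39, 8, 0, 3], [49, 4]],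
   [[0, 0, 0, 1], [1, 0, 0, 0, 0, 1, 0], [2, 1, 0, 1, 0, 0, 2, 0, 0], [3, 1, 0, 1, 1, 2, 1], [4,
     2, 0, 3, 0, 0, 4, 0, 1], [5, 2, 0, 0, 2, 0, 0, 0, 2, 0, 0, 1], [6, 3, 0, 3, 1, 3, 2], [7, 5,
     6, 8], [8, 4, 0, 0, 4, 0, 0, 0, 5, 0, 1], [9, 4, 1, 3, 2, 1, 4, 2], [10, 4, 0, 0, 3, 1, 0,
     1, 3, 0, 2], [11, 5, 0, 5, 2, 3, 3], [14, 7, 0, 8, 0, 6], [15, 7, 0, 7, 1, 6], [16, 6, 1, 0,
     6, 0, 1, 5], [17, 6, 1, 0, 6, 0, 1, 5], [18, 8, 0, 6, 2, 5], [25, 10, 8], [26, 9, 0, 8],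
     [27, 9, 0, 8], [28, 9, 0, 8], [39, 9]],
   [[0, 0, 0, 1, 2], [1, 0, 0, 0, 0, 1, 0, 3, 0], [2, 1, 0, 1, 0, 0, 2, 0, 0, 4, 0], [3, 1, 0, 1,
     1, 2, 1, 3, 1], [4, 2, 0, 4, 0, 5, 1, 6], [5, 2, 0, 0, 2, 0, 0, 0, 3, 0, 1, 6], [6, 3, 0, 3,
     1, 3, 2, 6], [8, 5, 0, 6, 0, 8], [9, 4, 1, 6, 1, 7], [10, 4, 0, 0, 5, 0, 1, 7], [11, 5, 0,
     5, 2, 7], [16, 8, 0, 9], [17, 8, 0, 9], [18, 8, 0, 9], [28, 10]],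
   [[0, 0, 0, 1, 2, 4], [1, 0, 0, 0, 0, 1, 0, 3, 0, 5], [2, 1, 0, 1, 0, 0, 3, 0, 5], [3, 1, 0, 1,
     1, 2, 1, 5], [4, 3, 5, 7], [5, 2, 0, 0, 3, 0, 0, 6], [6, 3, 0, 3, 1, 6], [9, 6, 8], [10, 5,
     0, 8], [11, 5, 0, 8], [18, 9]],
   [[0, 0, 0, 1, 2, 4], [1, 0, 0, 0, 0, 1, 0, 4], [2, 1, 0, 2, 0, 4], [3, 1, 0, 1, 1, 4], [5, 3,
     0, 5], [6, 3, 0, 5], [11, 6]],
   [[0, 0, 0, 1, 2], [1, 0, 0, 0, 0, 2], [2, 2, 3], [3, 1, 0, 3], [6, 4]],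
   [[0, 0, 0, 1], [1, 0, 0, 1], [3, 2]],
   [[0, 0, 0], [1, 1]],
   [[0, 0]],
   [[0]]]

/-- For every `j` and every partition `ν` of `12 - j` the gaps between the positions of the
partitions `μ` of `12` such that `μ / ν` is a horizontal strip. -/
def gp12 : List (List (List ℕ)) :=
  [[[0], [1], [2], [3], [4], [5], [6], [7], [8], [9], [10], [11], [12], [13], [14], [15], [16],
     [17], [18], [19], [20], [21], [22], [23], [24], [25], [26], [27], [28], [29], [30], [31],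
     [32], [33], [34], [35], [36], [37], [38], [39], [40], [41], [42], [43], [44], [45], [46],
     [47], [48], [49], [50], [51], [52], [53], [54], [55], [56], [57], [58], [59], [60], [61],
     [62], [63], [64], [65], [66], [67], [68], [69], [70], [71], [72], [73], [74], [75], [76]],
   [[0, 0], [1, 0, 0], [2, 1, 0], [3, 1, 0], [4, 2, 0], [5, 2, 0, 0], [6, 3, 0], [7, 4, 0], [8,
     4, 0, 0], [9, 4, 1], [10, 4, 0, 0], [11, 5, 0], [12, 6, 0], [13, 6, 0, 0], [14, 6, 1, 0],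
     [15, 6, 1, 0], [16, 7, 1, 0], [17, 7, 1, 0], [18, 9, 0], [20, 9, 0], [21, 8, 1, 0], [22, 8,
     1, 0], [23, 8, 2], [24, 8, 1, 0, 0], [25, 8, 2, 0], [26, 9, 2], [27, 9, 1, 0], [28, 9, 1,
     0], [29, 11, 0], [32, 10, 0], [33, 10, 0, 0], [34, 11, 0], [35, 8, 3, 0], [36, 8, 2, 1],
     [37, 8, 2, 0, 0], [38, 8, 3, 0], [39, 10, 2, 0], [40, 10, 2, 0], [41, 10, 2, 0], [42, 13,
     0], [48, 9, 0], [49, 9, 0], [50, 8, 1, 0], [51, 8, 1, 0], [52, 10, 0], [53, 7, 3], [54, 7,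
     2, 0], [55, 7, 2, 0], [56, 7, 2, 0], [57, 10, 0], [65, 4, 0], [66, 4, 0], [67, 4, 0], [68,
     4, 0], [69, 4, 0], [75, 0]],
   [[0, 0, 0], [1, 0, 0, 0, 0], [2, 1, 0, 1, 0, 0], [3, 1, 0, 1, 1], [4, 2, 0, 3, 0, 0], [5, 2,
     0, 0, 2, 0, 0, 0], [6, 3, 0, 3, 1], [7, 4, 0, 5, 0, 0], [8, 4, 0, 0, 4, 0, 0, 0, 0], [9, 4,
     1, 4, 2, 1], [10, 4, 0, 0, 4, 1, 0, 1], [11, 5, 0, 6, 2], [12, 7, 9], [13, 6, 0, 0, 7, 0, 0,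
     0], [14, 6, 1, 0, 5, 1, 0, 1, 0], [15, 6, 1, 0, 5, 1, 0, 0, 1], [16, 7, 1, 0, 5, 2, 0, 1],
     [17, 7, 1, 0, 5, 2, 0, 1], [18, 9, 0, 8, 2], [21, 10, 0, 9, 0, 0], [22, 10, 0, 9, 1], [23,
     8, 2, 8, 3], [24, 8, 1, 0, 0, 6, 0, 0, 1, 0, 0], [25, 8, 2, 0, 7, 0, 1, 1], [26, 9, 2, 5, 4,
     2], [27, 9, 1, 0, 5, 3, 0, 2], [28, 9, 1, 0, 5, 3, 0, 2], [29, 11, 0, 9, 3], [35, 12, 0, 8,
     0], [36, 11, 1, 8, 1], [37, 11, 0, 0, 7, 0, 1], [38, 12, 0, 7, 2], [39, 10, 2, 0, 6, 0, 2],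
     [40, 10, 2, 0, 6, 0, 2], [41, 10, 2, 0, 6, 0, 2], [42, 13, 0, 6, 3], [53, 11, 4], [54, 10,
     0, 4], [55, 10, 0, 4], [56, 10, 0, 4], [57, 10, 0, 4], [69, 5]],
   [[0, 0, 0, 1], [1, 0, 0, 0, 0, 1, 0], [2, 1, 0, 1, 0, 0, 2, 0, 0], [3, 1, 0, 1, 1, 2, 1], [4,
     2, 0, 3, 0, 0, 4, 0, 0, 1], [5, 2, 0, 0, 2, 0, 0, 0, 3, 0, 0, 1], [6, 3, 0, 3, 1, 4, 2], [7,
     4, 0, 6, 0, 8, 1], [8, 4, 0, 0, 4, 0, 0, 0, 0, 5, 0, 0, 0, 1], [9, 4, 1, 4, 2, 1, 3, 2, 2],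
     [10, 4, 0, 0, 4, 1, 0, 1, 3, 1, 0, 2], [11, 5, 0, 6, 2, 5, 3], [13, 7, 0, 9, 0, 9, 0], [14,
     6, 1, 0, 7, 0, 1, 0, 7, 0, 2], [15, 6, 1, 0, 7, 0, 0, 1, 6, 1, 2], [16, 7, 1, 0, 5, 2, 0, 1,
     5, 0, 3], [17, 7, 1, 0, 5, 2, 0, 1, 5, 0, 3], [18, 9, 0, 8, 2, 5, 4], [23, 11, 12, 9], [24,
     10, 0, 0, 10, 0, 0, 8], [25, 11, 0, 10, 1, 8], [26, 9, 2, 10, 2, 7], [27, 9, 1, 0, 9, 0, 2,
     7], [28, 9, 1, 0, 9, 0, 2, 7], [29, 11, 0, 9, 3, 7], [39, 13, 0, 10], [40, 13, 0, 10], [41,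
     13, 0, 10], [42, 13, 0, 10], [57, 11]],
   [[0, 0, 0, 1, 2], [1, 0, 0, 0, 0, 1, 0, 3, 0], [2, 1, 0, 1, 0, 0, 2, 0, 0, 4, 0, 0], [3, 1, 0,
     1, 1, 2, 1, 4, 1], [4, 2, 0, 3, 0, 0, 5, 0, 1, 6, 1], [5, 2, 0, 0, 2, 0, 0, 0, 3, 0, 0, 1,
     5, 0, 1], [6, 3, 0, 3, 1, 4, 2, 5, 2], [7, 5, 7, 10, 10], [8, 4, 0, 0, 5, 0, 0, 0, 7, 0, 1,
     8], [9, 4, 1, 4, 2, 1, 6, 2, 8], [10, 4, 0, 0, 4, 1, 0, 1, 5, 0, 2, 8], [11, 5, 0, 6, 2, 5,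
     3, 8], [14, 8, 0, 10, 0, 11], [15, 8, 0, 9, 1, 11], [16, 7, 1, 0, 8, 0, 1, 10], [17, 7, 1,
     0, 8, 0, 1, 10], [18, 9, 0, 8, 2, 10], [26, 12, 13], [27, 11, 0, 13], [28, 11, 0, 13], [29,
     11, 0, 13], [42, 14]],
   [[0, 0, 0, 1, 2, 4], [1, 0, 0, 0, 0, 1, 0, 3, 0, 5, 0], [2, 1, 0, 1, 0, 0, 2, 0, 0, 5, 0, 8],
     [3, 1, 0, 1, 1, 2, 1, 4, 1, 8], [4, 2, 0, 4, 0, 6, 1, 8], [5, 2, 0, 0, 2, 0, 0, 0, 4, 0, 1,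
     8], [6, 3, 0, 3, 1, 4, 2, 8], [8, 5, 0, 7, 0, 10], [9, 4, 1, 7, 1, 9], [10, 4, 0, 0, 6, 0,
     1, 9], [11, 5, 0, 6, 2, 9], [16, 9, 0, 11], [17, 9, 0, 11], [18, 9, 0, 11], [29, 12]],
   [[0, 0, 0, 1, 2, 4, 6], [1, 0, 0, 0, 0, 1, 0, 3, 0, 6], [2, 1, 0, 1, 0, 0, 3, 0, 6], [3, 1, 0,
     1, 1, 2, 1, 6], [4, 3, 5, 8], [5, 2, 0, 0, 3, 0, 0, 7], [6, 3, 0, 3, 1, 7], [9, 6, 9], [10,
     5, 0, 9], [11, 5, 0, 9], [18, 10]],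
   [[0, 0, 0, 1, 2, 4], [1, 0, 0, 0, 0, 1, 0, 4], [2, 1, 0, 2, 0, 4], [3, 1, 0, 1, 1, 4], [5, 3,
     0, 5], [6, 3, 0, 5], [11, 6]],
   [[0, 0, 0, 1, 2], [1, 0, 0, 0, 0, 2], [2, 2, 3], [3, 1, 0, 3], [6, 4]],
   [[0, 0, 0, 1], [1, 0, 0, 1], [3, 2]],
   [[0, 0, 0], [1, 1]],
   [[0, 0]],
   [[0]]]

/-- For every `j` and every partition `ν` of `13 - j` the gaps between the positions of the
partitions `μ` of `13` such that `μ / ν` is a horizontal strip. -/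
def gp13 : List (List (List ℕ)) :=
  [[[0], [1], [2], [3], [4], [5], [6], [7], [8], [9], [10], [11], [12], [13], [14], [15], [16],
     [17], [18], [19], [20], [21], [22], [23], [24], [25], [26], [27], [28], [29], [30], [31],
     [32], [33], [34], [35], [36], [37], [38], [39], [40], [41], [42], [43], [44], [45], [46],
     [47], [48], [49], [50], [51], [52], [53], [54], [55], [56], [57], [58], [59], [60], [61],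
     [62], [63], [64], [65], [66], [67], [68], [69], [70], [71], [72], [73], [74], [75], [76],
     [77], [78], [79], [80], [81], [82], [83], [84], [85], [86], [87], [88], [89], [90], [91],
     [92], [93], [94], [95], [96], [97], [98], [99], [100]],
   [[0, 0], [1, 0, 0], [2, 1, 0], [3, 1, 0], [4, 2, 0], [5, 2, 0, 0], [6, 3, 0], [7, 4, 0], [8,
     4, 0, 0], [9, 4, 1], [10, 4, 0, 0], [11, 5, 0], [12, 6, 0], [13, 6, 0, 0], [14, 6, 1, 0],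
     [15, 6, 1, 0], [16, 7, 1, 0], [17, 7, 1, 0], [18, 9, 0], [19, 10], [20, 9, 0, 0], [21, 9, 1,
     0], [22, 9, 1, 0], [23, 9, 2], [24, 9, 1, 0, 0], [25, 9, 2, 0], [26, 10, 2], [27, 10, 1, 0],
     [28, 10, 1, 0], [29, 12, 0], [31, 12, 0], [32, 12, 0], [33, 10, 2, 0], [34, 10, 2, 0, 0],
     [35, 10, 3, 0], [36, 11, 3, 0], [37, 11, 2, 1], [38, 11, 2, 0, 0], [39, 11, 3, 0], [40, 13,
     2, 0], [41, 13, 2, 0], [42, 13, 2, 0], [43, 16, 0], [47, 14], [48, 13, 0, 0], [49, 13, 1],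
     [50, 13, 0, 0], [51, 14, 0], [52, 10, 4, 0], [53, 10, 4, 0], [54, 10, 3, 1, 0], [55, 10, 3,
     1, 0], [56, 10, 5, 0], [57, 13, 3], [58, 13, 2, 0], [59, 13, 2, 0], [60, 13, 2, 0], [61, 16,
     0], [68, 11], [69, 10, 0, 0], [70, 11, 0], [71, 9, 2], [72, 9, 1, 0], [73, 9, 1, 0], [74,
     11, 0], [75, 8, 3, 0], [76, 8, 3, 0], [77, 8, 3, 0], [78, 8, 3, 0], [79, 12, 0], [88, 5],
     [89, 4, 0], [90, 4, 0], [91, 4, 0], [92, 4, 0], [93, 4, 0], [99, 0]],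
   [[0, 0, 0], [1, 0, 0, 0, 0], [2, 1, 0, 1, 0, 0], [3, 1, 0, 1, 1], [4, 2, 0, 3, 0, 0], [5, 2,
     0, 0, 2, 0, 0, 0], [6, 3, 0, 3, 1], [7, 4, 0, 5, 0, 0], [8, 4, 0, 0, 4, 0, 0, 0, 0], [9, 4,
     1, 4, 2, 1], [10, 4, 0, 0, 4, 1, 0, 1], [11, 5, 0, 6, 2], [12, 6, 0, 9, 0], [13, 6, 0, 0, 7,
     0, 0, 0, 0], [14, 6, 1, 0, 6, 1, 0, 1, 0], [15, 6, 1, 0, 6, 1, 0, 0, 1], [16, 7, 1, 0, 6, 2,
     0, 1], [17, 7, 1, 0, 6, 2, 0, 1], [18, 9, 0, 9, 2], [20, 10, 0, 11, 0], [21, 9, 1, 0, 9, 0,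
     1, 0, 0], [22, 9, 1, 0, 9, 0, 1, 1], [23, 9, 2, 7, 3, 3], [24, 9, 1, 0, 0, 6, 2, 0, 0, 1, 0,
     0], [25, 9, 2, 0, 6, 3, 0, 1, 1], [26, 10, 2, 8, 4, 2], [27, 10, 1, 0, 8, 3, 0, 2], [28, 10,
     1, 0, 8, 3, 0, 2], [29, 12, 0, 12, 3], [33, 13, 0, 13, 0], [34, 13, 0, 0, 11, 0, 0, 0], [35,
     14, 0, 12, 1], [36, 11, 3, 0, 9, 0, 3, 0], [37, 11, 2, 1, 8, 1, 3, 1], [38, 11, 2, 0, 0, 8,
     0, 0, 2, 0, 1], [39, 11, 3, 0, 9, 0, 2, 2], [40, 13, 2, 0, 6, 5, 0, 2], [41, 13, 2, 0, 6, 5,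
     0, 2], [42, 13, 2, 0, 6, 5, 0, 2], [43, 16, 0, 12, 3], [52, 15, 0, 10, 0], [53, 15, 0, 9,
     1], [54, 14, 1, 0, 8, 0, 1], [55, 14, 1, 0, 8, 0, 1], [56, 16, 0, 8, 2], [57, 13, 3, 8, 3],
     [58, 13, 2, 0, 7, 0, 3], [59, 13, 2, 0, 7, 0, 3], [60, 13, 2, 0, 7, 0, 3], [61, 16, 0, 7,
     4], [75, 12, 0, 4], [76, 12, 0, 4], [77, 12, 0, 4], [78, 12, 0, 4], [79, 12, 0, 4], [93, 5]],
   [[0, 0, 0, 1], [1, 0, 0, 0, 0, 1, 0], [2, 1, 0, 1, 0, 0, 2, 0, 0], [3, 1, 0, 1, 1, 2, 1], [4,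
     2, 0, 3, 0, 0, 4, 0, 0, 1], [5, 2, 0, 0, 2, 0, 0, 0, 3, 0, 0, 1], [6, 3, 0, 3, 1, 4, 2], [7,
     4, 0, 5, 0, 0, 8, 0, 1], [8, 4, 0, 0, 4, 0, 0, 0, 0, 5, 0, 0, 0, 0, 1], [9, 4, 1, 4, 2, 1,
     4, 2, 2], [10, 4, 0, 0, 4, 1, 0, 1, 4, 1, 0, 2], [11, 5, 0, 6, 2, 6, 3], [12, 7, 10, 12],
     [13, 6, 0, 0, 8, 0, 0, 0, 9, 0, 1, 0], [14, 6, 1, 0, 6, 1, 0, 1, 0, 6, 0, 2, 0, 2], [15, 6,
     1, 0, 6, 1, 0, 0, 1, 6, 0, 1, 1, 2], [16, 7, 1, 0, 6, 2, 0, 1, 4, 3, 0, 3], [17, 7, 1, 0, 6,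
     2, 0, 1, 4, 3, 0, 3], [18, 9, 0, 9, 2, 8, 4], [21, 11, 0, 12, 0, 0, 12, 0], [22, 11, 0, 12,
     1, 11, 1], [23, 9, 2, 11, 3, 10, 4], [24, 9, 1, 0, 0, 9, 0, 0, 1, 0, 0, 8, 0, 0, 3], [25, 9,
     2, 0, 10, 0, 1, 1, 8, 1, 3], [26, 10, 2, 8, 4, 2, 7, 5], [27, 10, 1, 0, 8, 3, 0, 2, 6, 0,
     5], [28, 10, 1, 0, 8, 3, 0, 2, 6, 0, 5], [29, 12, 0, 12, 3, 6, 6], [36, 15, 0, 14, 0, 10],
     [37, 14, 1, 14, 1, 9], [38, 14, 0, 0, 13, 0, 1, 9], [39, 15, 0, 13, 2, 9], [40, 13, 2, 0,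
     12, 0, 2, 8], [41, 13, 2, 0, 12, 0, 2, 8], [42, 13, 2, 0, 12, 0, 2, 8], [43, 16, 0, 12, 3,
     8], [57, 17, 12], [58, 16, 0, 12], [59, 16, 0, 12], [60, 16, 0, 12], [61, 16, 0, 12], [79,
     13]],
   [[0, 0, 0, 1, 2], [1, 0, 0, 0, 0, 1, 0, 3, 0], [2, 1, 0, 1, 0, 0, 2, 0, 0, 4, 0, 0], [3, 1, 0,
     1, 1, 2, 1, 4, 1], [4, 2, 0, 3, 0, 0, 4, 0, 0, 1, 6, 0, 1], [5, 2, 0, 0, 2, 0, 0, 0, 3, 0,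
     0, 1, 5, 0, 0, 1], [6, 3, 0, 3, 1, 4, 2, 6, 2], [7, 4, 0, 6, 0, 9, 1, 10, 2], [8, 4, 0, 0,
     4, 0, 0, 0, 0, 6, 0, 0, 0, 1, 7, 0, 2], [9, 4, 1, 4, 2, 1, 4, 2, 2, 7, 3], [10, 4, 0, 0, 4,
     1, 0, 1, 4, 1, 0, 2, 6, 0, 3], [11, 5, 0, 6, 2, 6, 3, 6, 4], [13, 7, 0, 10, 0, 12, 0, 13],
     [14, 6, 1, 0, 8, 0, 1, 0, 10, 0, 2, 10], [15, 6, 1, 0, 8, 0, 0, 1, 9, 1, 2, 10], [16, 7, 1,
     0, 6, 2, 0, 1, 8, 0, 3, 10], [17, 7, 1, 0, 6, 2, 0, 1, 8, 0, 3, 10], [18, 9, 0, 9, 2, 8, 4,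
     10], [23, 12, 15, 15], [24, 11, 0, 0, 13, 0, 0, 14], [25, 12, 0, 13, 1, 14], [26, 10, 2, 13,
     2, 13], [27, 10, 1, 0, 12, 0, 2, 13], [28, 10, 1, 0, 12, 0, 2, 13], [29, 12, 0, 12, 3, 13],
     [40, 16, 0, 16], [41, 16, 0, 16], [42, 16, 0, 16], [43, 16, 0, 16], [61, 17]],
   [[0, 0, 0, 1, 2, 4], [1, 0, 0, 0, 0, 1, 0, 3, 0, 5, 0], [2, 1, 0, 1, 0, 0, 2, 0, 0, 4, 0, 0,
     8, 0], [3, 1, 0, 1, 1, 2, 1, 4, 1, 7, 1], [4, 2, 0, 3, 0, 0, 5, 0, 1, 7, 1, 10], [5, 2, 0,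
     0, 2, 0, 0, 0, 3, 0, 0, 1, 6, 0, 1, 10], [6, 3, 0, 3, 1, 4, 2, 6, 2, 10], [7, 5, 7, 11, 13],
     [8, 4, 0, 0, 5, 0, 0, 0, 8, 0, 1, 11], [9, 4, 1, 4, 2, 1, 7, 2, 11], [10, 4, 0, 0, 4, 1, 0,
     1, 6, 0, 2, 11], [11, 5, 0, 6, 2, 6, 3, 11], [14, 8, 0, 11, 0, 14], [15, 8, 0, 10, 1, 14],
     [16, 7, 1, 0, 9, 0, 1, 13], [17, 7, 1, 0, 9, 0, 1, 13], [18, 9, 0, 9, 2, 13], [26, 13, 16],
     [27, 12, 0, 16], [28, 12, 0, 16], [29, 12, 0, 16], [43, 17]],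
   [[0, 0, 0, 1, 2, 4, 6], [1, 0, 0, 0, 0, 1, 0, 3, 0, 5, 0, 9], [2, 1, 0, 1, 0, 0, 2, 0, 0, 5,
     0, 9], [3, 1, 0, 1, 1, 2, 1, 4, 1, 9], [4, 2, 0, 4, 0, 6, 1, 9], [5, 2, 0, 0, 2, 0, 0, 0, 4,
     0, 1, 9], [6, 3, 0, 3, 1, 4, 2, 9], [8, 5, 0, 7, 0, 11], [9, 4, 1, 7, 1, 10], [10, 4, 0, 0,
     6, 0, 1, 10], [11, 5, 0, 6, 2, 10], [16, 9, 0, 12], [17, 9, 0, 12], [18, 9, 0, 12], [29, 13]],
   [[0, 0, 0, 1, 2, 4, 6], [1, 0, 0, 0, 0, 1, 0, 3, 0, 6], [2, 1, 0, 1, 0, 0, 3, 0, 6], [3, 1, 0,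
     1, 1, 2, 1, 6], [4, 3, 5, 8], [5, 2, 0, 0, 3, 0, 0, 7], [6, 3, 0, 3, 1, 7], [9, 6, 9], [10,
     5, 0, 9], [11, 5, 0, 9], [18, 10]],
   [[0, 0, 0, 1, 2, 4], [1, 0, 0, 0, 0, 1, 0, 4], [2, 1, 0, 2, 0, 4], [3, 1, 0, 1, 1, 4], [5, 3,
     0, 5], [6, 3, 0, 5], [11, 6]],
   [[0, 0, 0, 1, 2], [1, 0, 0, 0, 0, 2], [2, 2, 3], [3, 1, 0, 3], [6, 4]],
   [[0, 0, 0, 1], [1, 0, 0, 1], [3, 2]],
   [[0, 0, 0], [1, 1]],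
   [[0, 0]],
   [[0]]]

/-- All gaps. -/
def GP : List (List (List (List ℕ))) := [gp0, gp1, gp2, gp3, gp4, gp5, gp6, gp7, gp8, gp9, gp10,
     gp11, gp12, gp13]

end Pool.Agent.V8H2.SNP
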