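import Mathlib
import Pool.Agent.V8H2.SNP.Data
import Pool.Agent.V8H2.SNP.Parts

/-! # The computation -/

set_option autoImplicit false

namespace Pool.Agent.V8H2.SNP

/-- The partitions of `n` with parts at most `m` (first argument: fuel). -/
def pa : ℕ → ℕ → ℕ → List (List ℕ)
  | 0, n, _ => if n = 0 then [[]] else []
  | f + 1, n, m => if n = 0 then [[]] else
      (List.range (min n m)).reverse.flatMap fun i => (pa f (n - (i + 1)) (i + 1)).map
        fun l => (i + 1) :: l

/-- `μ / ν` is a horizontal strip and the first part of `μ` is at most `cap`. -/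
def hs : ℕ → List ℕ → List ℕ → Bool
  | _, [], [] => true
  | cap, [], b :: r => Nat.ble b cap && r.isEmpty
  | _, _ :: _, [] => false
  | cap, a :: l, b :: r => Nat.ble a b && (Nat.ble b cap && hs a l r)

/-- The gaps between the positions of the `l` in the list such that `l / ν` is a horizontal
strip. -/
def gaps (nu : List ℕ) : ℕ → List (List ℕ) → List ℕ
  | _, [] => []
  | k, l :: P => if hs 100 nu l then k :: gaps nu 0 P else gaps nu (k + 1) P

/-- The list of the partitions of `n`. -/
def pts (n : ℕ) : List (List ℕ) := PT.getD n []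

/-- The coefficients of the state `(a, c, d, b)`. -/
def vec (a c d b : ℕ) : List ℤ := ((((table.getD a []).getD c []).getD d []).getD b [])

/-- The sum of the entries of `v` at the positions given by the gaps. -/
def gather : List ℕ → List ℤ → ℤ
  | [], _ => 0
  | g :: gs, v => match v.drop g with
    | [] => 0
    | c :: v' => c + gather gs v'

/-- A multiple of `v` is added to `w`. -/
def addMul (q : ℤ) (v w : List ℤ) : List ℤ := List.zipWith (fun x y => q * x + y) v w

/-- All quadruples below `(a, c, d, b)`. -/
def quads (a c d b : ℕ) : List (ℕ × ℕ × ℕ × ℕ) :=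
  (List.range (a + 1)).flatMap fun sa => (List.range (c + 1)).flatMap fun sc =>
    (List.range (d + 1)).flatMap fun sd => (List.range (b + 1)).map fun sb => (sa, sc, sd, sb)

/-- The quadruple belongs to stable sets with `j` elements. -/
def okj (j : ℕ) (s : ℕ × ℕ × ℕ × ℕ) : Prop :=
  s.1 * s.2.1 = 0 ∧ s.2.1 * s.2.2.1 = 0 ∧ s.2.2.1 * s.2.2.2 = 0 ∧
    s.1 + s.2.1 + s.2.2.1 + s.2.2.2 = j

instance (j : ℕ) (s : ℕ × ℕ × ℕ × ℕ) : Decidable (okj j s) := by
  unfold okj
  infer_instance

/-- The number of sets with the type `s`. -/
def mult (a c d b : ℕ) (s : ℕ × ℕ × ℕ × ℕ) : ℕ :=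
  Nat.choose a s.1 * Nat.choose c s.2.1 * Nat.choose d s.2.2.1 * Nat.choose b s.2.2.2

/-- The combination of the vectors of the smaller states. -/
def rhs (len j a c d b : ℕ) : List ℤ :=
  (quads a c d b).foldr (fun s acc => if okj j s then
    addMul (mult a c d b s : ℤ) (vec (a - s.1) (c - s.2.1) (d - s.2.2.1) (b - s.2.2.2)) acc
    else acc) (List.replicate len 0)

/-- The coefficients after the removal of horizontal strips of size `j`. -/
def lhs (n j a c d b : ℕ) : List ℤ :=
  ((GP.getD n []).getD j []).map fun g => gather g (vec a c d b)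

/-- The check for one state. -/
def chk (a c d b : ℕ) : Bool :=
  (List.range (a + c + d + b + 1)).all fun j => lhs (a + c + d + b) j a c d b =
    rhs ((pts (a + c + d + b - j)).length) j a c d b

/-- The check for the states with given `a`. -/
def chkA (a : ℕ) : Bool :=
  (List.range 3).all fun c => (List.range 3).all fun d => (List.range 5).all fun b => chk a c d b

/-- The check of the gaps. -/
def chkG (n : ℕ) : Bool :=
  (List.range (n + 1)).all fun j =>
    (GP.getD n []).getD j [] = (pts (n - j)).map fun nu => gaps nu 0 (pts n)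

end Pool.Agent.V8H2.SNP
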