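import Mathlib
import Pool.Agent.V8H2.SNP.Comp

set_option autoImplicit false

namespace Pool.Agent.V8H2.SNP

set_option maxRecDepth 100000 in
theorem chkA_3 : chkA 3 = true := by decide +kernel

end Pool.Agent.V8H2.SNP
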