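import Mathlib
import Pool.Agent.V8H2.SNP.Comp

set_option autoImplicit false

namespace Pool.Agent.V8H2.SNP

set_option maxRecDepth 100000 in
theorem chkG_13 : chkG 13 = true := by decide +kernel

set_option maxRecDepth 100000 in
theorem chkG_12 : chkG 12 = true := by decide +kernel

set_option maxRecDepth 100000 in
theorem chkG_small : (List.range 12).all (fun n => chkG n) = true := by decide +kernel

set_option maxRecDepth 100000 in
theorem pa_eq_pts : (List.range 14).all (fun n => pa n n n = pts n) = true := by decide +kernel

set_option maxRecDepth 100000 in
theorem nodup_pts : (List.range 14).all (fun n => (pts n).Nodup) = true := by decide +kernel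

set_option maxRecDepth 100000 in
theorem len_vec : (List.range 6).all (fun a => (List.range 3).all fun c => (List.range 3).all
    fun d => (List.range 5).all fun b =>
    (vec a c d b).length = (pts (a + c + d + b)).length) = true := by decide +kernel

set_option maxRecDepth 100000 in
theorem vec_nonneg : (vec 5 2 2 4).all (fun x => 0 ≤ x) = true := by decide +kernel

end Pool.Agent.V8H2.SNP
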