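import Mathlib
import Pool.Agent.V8H2.SNP.Comp
import Pool.Agent.R850.FG.SSYT

/-! # Partitions as lists and Young diagrams; the removal of horizontal strips -/

set_option autoImplicit false

namespace Pool.Agent.V8H2.SNP

open Pool.Agent.R850.FG

/-- A partition: weakly decreasing with positive entries. -/
def IsP (l : List ℕ) : Prop := (∀ i, l.getD (i + 1) 0 ≤ l.getD i 0) ∧ ∀ x ∈ l, 0 < x

/-- The diagram of a list. -/
noncomputable def toYD (l : List ℕ) : YoungDiagram := mk fun i => l.getD i 0

theorem anti_getD {l : List ℕ} (h : IsP l) : Antitone fun i => l.getD i 0 :=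
  antitone_nat_of_succ_le h.1

theorem rowLen_toYD {l : List ℕ} (h : IsP l) (i : ℕ) : (toYD l).rowLen i = l.getD i 0 :=
  mk_rowLen _ (anti_getD h) l.length (by simp [List.getD_eq_default]) i

theorem card_toYD {l : List ℕ} (h : IsP l) : (toYD l).cells.card = l.sum := by
  rw [card_eq_sum (toYD l) l.length (by rw [rowLen_toYD h]; simp [List.getD_eq_default])]
  simp_rw [rowLen_toYD h]
  clear h
  induction l with
  | nil => simp
  | cons a l ih =>
    rw [List.length_cons, Finset.sum_range_succ', List.sum_cons]
    simp only [List.getD_cons_succ, List.getD_cons_zero]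
    rw [ih, add_comm]

theorem isP_tail {a : ℕ} {l : List ℕ} (h : IsP (a :: l)) : IsP l :=
  ⟨fun i => by simpa using h.1 (i + 1), fun x hx => h.2 x (List.mem_cons_of_mem _ hx)⟩

theorem isP_cons {a : ℕ} {l : List ℕ} (h : IsP l) (ha : 0 < a) (hl : l.getD 0 0 ≤ a) :
    IsP (a :: l) := by
  refine ⟨fun i => ?_, fun x hx => ?_⟩
  · cases i with
    | zero => simpa using hl
    | succ i => simpa using h.1 i
  · rcases List.mem_cons.1 hx with rfl | hx
    · exact ha
    · exact h.2 x hx

theorem ext_getD {l l' : List ℕ} (h : IsP l) (h' : IsP l')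
    (he : ∀ i, l.getD i 0 = l'.getD i 0) : l = l' := by
  induction l generalizing l' with
  | nil =>
    cases l' with
    | nil => rfl
    | cons b r =>
      have h1 := he 0
      have h2 := h'.2 b (by simp)
      simp at h1
      omega
  | cons a l ih =>
    cases l' with
    | nil =>
      have h1 := he 0
      have h2 := h.2 a (by simp)
      simp at h1
      omega
    | cons b r =>
      have h1 := he 0
      simp only [List.getD_cons_zero] at h1
      rw [h1, ih (isP_tail h) (isP_tail h') fun i => by simpa using he (i + 1)]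

theorem toYD_inj {l l' : List ℕ} (h : IsP l) (h' : IsP l') (he : toYD l = toYD l') : l = l' :=
  ext_getD h h' fun i => by rw [← rowLen_toYD h, ← rowLen_toYD h', he]

theorem mem_pa (f n m : ℕ) (hf : n ≤ f) (l : List ℕ) :
    l ∈ pa f n m ↔ IsP l ∧ l.sum = n ∧ l.getD 0 0 ≤ m := by
  induction f generalizing n m l with
  | zero =>
    obtain rfl : n = 0 := by omega
    rw [pa, if_pos rfl, List.mem_singleton]
    constructor
    · rintro rfl
      exact ⟨⟨by simp, by simp⟩, rfl, by simp⟩
    · rintro ⟨h1, h2, -⟩
      cases l with
      | nil => rfl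
      | cons a l =>
        have := h1.2 a (by simp)
        simp at h2
        omega
  | succ f ih =>
    rw [pa]
    split_ifs with hn
    · subst hn
      rw [List.mem_singleton]
      constructor
      · rintro rfl
        exact ⟨⟨by simp, by simp⟩, rfl, by simp⟩
      · rintro ⟨h1, h2, -⟩
        cases l with
        | nil => rfl
        | cons a l =>
          have := h1.2 a (by simp)
          simp at h2
          omega
    · simp only [List.mem_flatMap, List.mem_reverse, List.mem_range, List.mem_map]
      constructor
      · rintro ⟨i, hi, l', hl', rfl⟩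
        rw [ih _ _ (by omega)] at hl'
        obtain ⟨h1, h2, h3⟩ := hl'
        refine ⟨isP_cons h1 (by omega) h3, ?_, ?_⟩
        · rw [List.sum_cons, h2]
          omega
        · rw [List.getD_cons_zero]
          omega
      · rintro ⟨h1, h2, h3⟩
        cases l with
        | nil =>
          simp at h2
          omega
        | cons a l =>
          have ha := h1.2 a (by simp)
          rw [List.sum_cons] at h2
          rw [List.getD_cons_zero] at h3
          refine ⟨a - 1, by omega, l, ?_, by rw [Nat.sub_add_cancel ha]⟩
          rw [ih _ _ (by omega), Nat.sub_add_cancel ha]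
          refine ⟨isP_tail h1, by omega, ?_⟩
          have := h1.1 0
          simpa using this

theorem hs_iff (cap : ℕ) (nu l : List ℕ) (h : IsP nu) (h' : IsP l) :
    hs cap nu l = true ↔ l.getD 0 0 ≤ cap ∧
      ∀ i, l.getD (i + 1) 0 ≤ nu.getD i 0 ∧ nu.getD i 0 ≤ l.getD i 0 := by
  induction nu generalizing cap l with
  | nil =>
    cases l with
    | nil => simp [hs]
    | cons b r =>
      rw [hs, Bool.and_eq_true, Nat.ble_eq, List.isEmpty_iff, List.getD_cons_zero]
      constructor
      · rintro ⟨h1, rfl⟩
        exact ⟨h1, fun i => by simp⟩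
      · rintro ⟨h1, h2⟩
        refine ⟨h1, ?_⟩
        cases r with
        | nil => rfl
        | cons c r =>
          have h3 := (h2 0).1
          have h4 := h'.2 c (by simp)
          simp at h3
          omega
  | cons a nu ih =>
    cases l with
    | nil =>
      rw [hs]
      constructor
      · intro h1
        exact absurd h1 (by simp)
      · rintro ⟨-, h1⟩
        have h2 := (h1 0).2
        have h3 := h.2 a (by simp)
        simp at h2
        omega
    | cons b r =>
      rw [hs, Bool.and_eq_true, Bool.and_eq_true, Nat.ble_eq, Nat.ble_eq,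
        ih a r (isP_tail h) (isP_tail h'), List.getD_cons_zero]
      constructor
      · rintro ⟨h1, h2, h3, h4⟩
        refine ⟨h2, fun i => ?_⟩
        cases i with
        | zero => simpa using ⟨h3, h1⟩
        | succ i => simpa using h4 i
      · rintro ⟨h2, h3⟩
        have h4 := h3 0
        simp only [List.getD_cons_zero, zero_add, List.getD_cons_succ] at h4
        exact ⟨h4.2, h2, h4.1, fun i => by simpa using h3 (i + 1)⟩

theorem pts_eq {n : ℕ} (hn : n ≤ 13) (hpa : (List.range 14).all (fun n => pa n n n = pts n) = true) :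
    pa n n n = pts n := by
  rw [List.all_eq_true] at hpa
  simpa using hpa n (List.mem_range.2 (by omega))

theorem mem_pts {n : ℕ} (hn : n ≤ 13)
    (hpa : (List.range 14).all (fun n => pa n n n = pts n) = true) (l : List ℕ) :
    l ∈ pts n ↔ IsP l ∧ l.sum = n := by
  rw [← pts_eq hn hpa, mem_pa n n n le_rfl]
  constructor
  · exact fun h => ⟨h.1, h.2.1⟩
  · intro h
    refine ⟨h.1, h.2, ?_⟩
    cases l with
    | nil => simp
    | cons a l =>
      have := h.2
      simp at this ⊢
      omega

/-- Every diagram with `n` cells comes from a list. -/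
theorem exists_list (μ : YoungDiagram) : ∃ l : List ℕ, IsP l ∧ toYD l = μ := by
  have key : ∀ (b : ℕ) (f : ℕ → ℕ), Antitone f → f b = 0 →
      ∃ l : List ℕ, IsP l ∧ ∀ i, l.getD i 0 = f i := by
    intro b
    induction b with
    | zero =>
      intro f hf h0
      refine ⟨[], ⟨by simp, by simp⟩, fun i => ?_⟩
      have := hf (Nat.zero_le i)
      simp only [List.getD_nil]
      omega
    | succ b ih =>
      intro f hf h0
      by_cases hz : f 0 = 0
      · refine ⟨[], ⟨by simp, by simp⟩, fun i => ?_⟩
        have := hf (Nat.zero_le i)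
        simp only [List.getD_nil]
        omega
      · obtain ⟨l, hl, hl'⟩ := ih (fun i => f (i + 1))
          (fun i j hij => hf (Nat.add_le_add_right hij 1)) h0
        refine ⟨f 0 :: l, isP_cons hl (by omega) ?_, fun i => ?_⟩
        · rw [hl']
          exact hf (Nat.zero_le 1)
        · cases i with
          | zero => simp
          | succ i => simpa using hl' i
  obtain ⟨b, hb⟩ := exists_zero μ
  obtain ⟨l, hl, hl'⟩ := key b μ.rowLen (fun i j hij => μ.rowLen_anti i j hij) hb
  refine ⟨l, hl, ext_rowLen fun i => ?_⟩
  rw [rowLen_toYD hl, hl']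

theorem IL_toYD_iff (nu l : List ℕ) (h : IsP nu) (h' : IsP l) (hcap : l.getD 0 0 ≤ 100) :
    IL (toYD nu) (toYD l) ↔ hs 100 nu l = true := by
  rw [hs_iff 100 nu l h h']
  unfold IL
  simp_rw [rowLen_toYD h, rowLen_toYD h']
  exact ⟨fun h1 => ⟨hcap, h1⟩, fun h1 => h1.2⟩

theorem sum_map_eq {α : Type} (L : List α) (hL : L.Nodup) (F : α → ℤ) [DecidableEq α] :
    (L.map F).sum = ∑ x ∈ L.toFinset, F x := by
  rw [List.sum_toFinset _ hL]

theorem U_toYD {n : ℕ} (hn : n ≤ 13)
    (hpa : (List.range 14).all (fun n => pa n n n = pts n) = true)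
    (hnd : (List.range 14).all (fun n => (pts n).Nodup) = true)
    (l : List ℕ) (hl : l ∈ pts n) (j : ℕ) (hj : j ≤ n) (f : YoungDiagram → ℤ) :
    U (j : ℤ) f (toYD l) =
      ((pts (n - j)).map fun l' => if hs 100 l' l = true then f (toYD l') else 0).sum := by
  classical
  have hl1 := (mem_pts hn hpa l).1 hl
  have hnd' : (pts (n - j)).Nodup := by
    rw [List.all_eq_true] at hnd
    simpa using hnd (n - j) (List.mem_range.2 (by omega))
  have hcap : l.getD 0 0 ≤ 100 := by
    cases l with
    | nil => simp
    | cons a l =>
      have := hl1.2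
      simp at this ⊢
      omega
  rw [sum_map_eq _ hnd', ← Finset.sum_filter, U]
  symm
  refine Finset.sum_bij (fun l' _ => toYD l') ?_ ?_ ?_ ?_
  · intro l' hl'
    rw [Finset.mem_filter, List.mem_toFinset, mem_pts (by omega) hpa] at hl'
    rw [Finset.mem_filter, mem_below, IL_toYD_iff _ _ hl'.1.1 hl1.1 hcap, card_toYD hl'.1.1,
      card_toYD hl1.1, hl'.1.2, hl1.2]
    exact ⟨hl'.2, by omega⟩
  · intro l1 h1 l2 h2 he
    rw [Finset.mem_filter, List.mem_toFinset, mem_pts (by omega) hpa] at h1 h2
    exact toYD_inj h1.1.1 h2.1.1 he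
  · intro ν hν
    rw [Finset.mem_filter, mem_below] at hν
    obtain ⟨l', hl', rfl⟩ := exists_list ν
    rw [IL_toYD_iff _ _ hl' hl1.1 hcap, card_toYD hl', card_toYD hl1.1, hl1.2] at hν
    refine ⟨l', ?_, rfl⟩
    rw [Finset.mem_filter, List.mem_toFinset, mem_pts (by omega) hpa]
    exact ⟨⟨hl', by omega⟩, hν.1⟩
  · intro l' _
    rfl

theorem U_toYD_zero {n : ℕ} (hn : n ≤ 13)
    (hpa : (List.range 14).all (fun n => pa n n n = pts n) = true)
    (l : List ℕ) (hl : l ∈ pts n) (j : ℕ) (hj : n < j) (f : YoungDiagram → ℤ) :
    U (j : ℤ) f (toYD l) = 0 := by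
  have hl1 := (mem_pts hn hpa l).1 hl
  rw [U]
  refine Finset.sum_eq_zero fun ν hν => ?_
  rw [Finset.mem_filter, card_toYD hl1.1, hl1.2] at hν
  omega

/-- The combination of values. -/
def dot (v : List ℤ) (P : List (List ℕ)) (F : List ℕ → ℤ) : ℤ :=
  (List.zipWith (fun c l => c * F l) v P).sum

theorem dot_nil (P : List (List ℕ)) (F : List ℕ → ℤ) : dot [] P F = 0 := rfl

theorem dot_cons (c : ℤ) (v : List ℤ) (l : List ℕ) (P : List (List ℕ)) (F : List ℕ → ℤ) :
    dot (c :: v) (l :: P) F = c * F l + dot v P F := by
  simp [dot]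

theorem dot_congr (v : List ℤ) (P : List (List ℕ)) (F F' : List ℕ → ℤ)
    (h : ∀ l ∈ P, F l = F' l) : dot v P F = dot v P F' := by
  induction v generalizing P with
  | nil => rfl
  | cons c v ih =>
    cases P with
    | nil => simp [dot]
    | cons l P =>
      rw [dot_cons, dot_cons, h l (by simp), ih P fun l' hl' => h l' (by simp [hl'])]

theorem gather_gaps (nu : List ℕ) (k : ℕ) (P : List (List ℕ)) (v : List ℤ) :
    gather (gaps nu k P) v = dot (v.drop k) P fun l => if hs 100 nu l = true then 1 else 0 := by
  induction P generalizing k v with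
  | nil => simp [gaps, gather, dot]
  | cons l P ih =>
    rw [gaps]
    split_ifs with h
    · rw [gather]
      cases hv : v.drop k with
      | nil => simp [dot]
      | cons c v' =>
        simp only
        rw [ih, dot_cons, if_pos h, List.drop_zero, mul_one]
    · rw [ih]
      have h1 : v.drop (k + 1) = (v.drop k).drop 1 := by rw [List.drop_drop, add_comm]
      cases hv : v.drop k with
      | nil => rw [h1, hv]; simp [dot]
      | cons c v' =>
        rw [h1, hv, dot_cons, if_neg h]
        simp

theorem dot_swap (v : List ℤ) (P Q : List (List ℕ)) (h : List ℕ → List ℕ → Bool)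
    (G : List ℕ → ℤ) :
    dot v P (fun l => (Q.map fun l' => if h l' l = true then G l' else 0).sum) =
      (Q.map fun l' => (dot v P fun l => if h l' l = true then 1 else 0) * G l').sum := by
  induction v generalizing P with
  | nil => simp [dot]
  | cons c v ih =>
    cases P with
    | nil => simp [dot]
    | cons l P =>
      simp_rw [dot_cons]
      rw [ih, ← List.sum_map_mul_left, ← List.sum_map_add]
      congr 1
      refine List.map_congr_left fun l' _ => ?_
      split_ifs <;> ring

theorem dot_map {α : Type} (Q : List α) (F : α → ℤ) (l : α → List ℕ) (G : List ℕ → ℤ) :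
    dot (Q.map F) (Q.map l) G = (Q.map fun x => F x * G (l x)).sum := by
  induction Q with
  | nil => rfl
  | cons x Q ih => rw [List.map_cons, List.map_cons, dot_cons, ih, List.map_cons, List.sum_cons]

theorem dot_addMul (q : ℤ) (v w : List ℤ) (P : List (List ℕ)) (F : List ℕ → ℤ)
    (h1 : v.length = P.length) (h2 : w.length = P.length) :
    dot (addMul q v w) P F = q * dot v P F + dot w P F := by
  induction P generalizing v w with
  | nil =>
    rw [List.length_nil, List.length_eq_zero_iff] at h1 h2
    subst h1 h2
    simp [dot, addMul]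
  | cons l P ih =>
    cases v with
    | nil => simp at h1
    | cons c v =>
      cases w with
      | nil => simp at h2
      | cons c' w =>
        have e : addMul q (c :: v) (c' :: w) = (q * c + c') :: addMul q v w := rfl
        rw [e, dot_cons, dot_cons, dot_cons, ih v w (by simpa using h1) (by simpa using h2)]
        ring

theorem length_addMul (q : ℤ) (v w : List ℤ) (n : ℕ) (h1 : v.length = n) (h2 : w.length = n) :
    (addMul q v w).length = n := by
  rw [addMul, List.length_zipWith, h1, h2, min_self]

theorem dot_replicate (n : ℕ) (P : List (List ℕ)) (F : List ℕ → ℤ) :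
    dot (List.replicate n 0) P F = 0 := by
  induction n generalizing P with
  | zero => rfl
  | succ n ih =>
    cases P with
    | nil => simp [dot]
    | cons l P =>
      rw [List.replicate_succ, dot_cons, ih]
      simp

end Pool.Agent.V8H2.SNP
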