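import Mathlib
import Pool.Agent.V8H2.SNP.Tools
import Pool.Agent.V8H2.SNP.ChkG

/-! # The numbers of colourings, in terms of Schur functions -/

set_option autoImplicit false

namespace Pool.Agent.V8H2.SNP

open Pool.Agent.R850.FG

/-- The number of the colourings with `k` colours of the state `(a, c, d, b)` in which the colour
`i` is used `m i` times. -/
def g (m : ℕ → ℕ) : ℕ → ℕ → ℕ → ℕ → ℕ → ℤ
  | 0, a, c, d, b => if a + c + d + b = 0 then 1 else 0
  | k + 1, a, c, d, b => ((quads a c d b).map fun s => if okj (m k) s then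
      (mult a c d b s : ℤ) * g m k (a - s.1) (c - s.2.1) (d - s.2.2.1) (b - s.2.2.2) else 0).sum

theorem mem_quads (a c d b : ℕ) (s : ℕ × ℕ × ℕ × ℕ) :
    s ∈ quads a c d b ↔ s.1 ≤ a ∧ s.2.1 ≤ c ∧ s.2.2.1 ≤ d ∧ s.2.2.2 ≤ b := by
  obtain ⟨s1, s2, s3, s4⟩ := s
  simp only [quads, List.mem_flatMap, List.mem_range, List.mem_map, Prod.mk.injEq]
  constructor
  · rintro ⟨x, hx, y, hy, z, hz, w, hw, rfl, rfl, rfl, rfl⟩
    omega
  · rintro ⟨h1, h2, h3, h4⟩
    exact ⟨s1, by omega, s2, by omega, s3, by omega, s4, by omega, rfl, rfl, rfl, rfl⟩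

theorem len_vec' {a c d b : ℕ} (ha : a ≤ 5) (hc : c ≤ 2) (hd : d ≤ 2) (hb : b ≤ 4) :
    (vec a c d b).length = (pts (a + c + d + b)).length := by
  have h := len_vec
  rw [List.all_eq_true] at h
  have h1 := h a (List.mem_range.2 (by omega))
  rw [List.all_eq_true] at h1
  have h2 := h1 c (List.mem_range.2 (by omega))
  rw [List.all_eq_true] at h2
  have h3 := h2 d (List.mem_range.2 (by omega))
  rw [List.all_eq_true] at h3
  simpa using h3 b (List.mem_range.2 (by omega))

theorem chkG_all {n : ℕ} (hn : n ≤ 13) : chkG n = true := by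
  rcases Nat.lt_or_ge n 12 with h | h
  · have h1 := chkG_small
    rw [List.all_eq_true] at h1
    exact h1 n (List.mem_range.2 h)
  · rcases Nat.lt_or_ge n 13 with h2 | h2
    · obtain rfl : n = 12 := by omega
      exact chkG_12
    · obtain rfl : n = 13 := by omega
      exact chkG_13

theorem lhs_eq {n j : ℕ} (hn : n ≤ 13) (hj : j ≤ n) (a c d b : ℕ) :
    lhs n j a c d b = (pts (n - j)).map fun l' =>
      dot (vec a c d b) (pts n) fun l => if hs 100 l' l = true then 1 else 0 := by
  have h := chkG_all hn
  rw [chkG, List.all_eq_true] at h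
  have h1 := h j (List.mem_range.2 (by omega))
  rw [decide_eq_true_eq] at h1
  rw [lhs, h1, List.map_map]
  refine List.map_congr_left fun l' _ => ?_
  rw [Function.comp, gather_gaps, List.drop_zero]

theorem chk_eq {a c d b j : ℕ} (h : chk a c d b = true) (hj : j ≤ a + c + d + b) :
    lhs (a + c + d + b) j a c d b = rhs ((pts (a + c + d + b - j)).length) j a c d b := by
  rw [chk, List.all_eq_true] at h
  simpa using h j (List.mem_range.2 (by omega))

theorem dot_rhs {a c d b : ℕ} (ha : a ≤ 5) (hc : c ≤ 2) (hd : d ≤ 2) (hb : b ≤ 4) (j : ℕ)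
    (G : List ℕ → ℤ) :
    dot (rhs ((pts (a + c + d + b - j)).length) j a c d b) (pts (a + c + d + b - j)) G =
      ((quads a c d b).map fun s => if okj j s then (mult a c d b s : ℤ) *
        dot (vec (a - s.1) (c - s.2.1) (d - s.2.2.1) (b - s.2.2.2)) (pts (a + c + d + b - j)) G
        else 0).sum := by
  have key : ∀ L : List (ℕ × ℕ × ℕ × ℕ), (∀ s ∈ L, s ∈ quads a c d b) →
      (L.foldr (fun s acc => if okj j s then
        addMul (mult a c d b s : ℤ) (vec (a - s.1) (c - s.2.1) (d - s.2.2.1) (b - s.2.2.2)) acc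
        else acc) (List.replicate (pts (a + c + d + b - j)).length 0)).length =
        (pts (a + c + d + b - j)).length ∧
      dot (L.foldr (fun s acc => if okj j s then
        addMul (mult a c d b s : ℤ) (vec (a - s.1) (c - s.2.1) (d - s.2.2.1) (b - s.2.2.2)) acc
        else acc) (List.replicate (pts (a + c + d + b - j)).length 0))
        (pts (a + c + d + b - j)) G =
      (L.map fun s => if okj j s then (mult a c d b s : ℤ) *
        dot (vec (a - s.1) (c - s.2.1) (d - s.2.2.1) (b - s.2.2.2)) (pts (a + c + d + b - j)) G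
        else 0).sum := by
    intro L
    induction L with
    | nil =>
      intro _
      exact ⟨by simp, by simp [dot_replicate]⟩
    | cons s L ih =>
      intro hL
      obtain ⟨h1, h2⟩ := ih fun s hs => hL s (List.mem_cons_of_mem _ hs)
      rw [List.foldr_cons, List.map_cons, List.sum_cons]
      by_cases hs : okj j s
      · rw [if_pos hs, if_pos hs]
        have hm := (mem_quads a c d b s).1 (hL s (by simp))
        have hj : s.1 + s.2.1 + s.2.2.1 + s.2.2.2 = j := hs.2.2.2
        have hlen : (vec (a - s.1) (c - s.2.1) (d - s.2.2.1) (b - s.2.2.2)).length =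
            (pts (a + c + d + b - j)).length := by
          rw [len_vec' (by omega) (by omega) (by omega) (by omega)]
          congr 2
          omega
        exact ⟨length_addMul _ _ _ _ hlen h1, by rw [dot_addMul _ _ _ _ _ hlen h1, h2]⟩
      · rw [if_neg hs, if_neg hs, zero_add]
        exact ⟨h1, h2⟩
  exact (key _ fun s hs => hs).2

/-- The numbers of colourings in terms of the numbers of tableaux. -/
theorem g_eq (hchk : ∀ a ≤ 5, ∀ c ≤ 2, ∀ d ≤ 2, ∀ b ≤ 4, chk a c d b = true) (m : ℕ → ℕ) (k : ℕ) :
    ∀ a ≤ 5, ∀ c ≤ 2, ∀ d ≤ 2, ∀ b ≤ 4, g m k a c d b =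
      dot (vec a c d b) (pts (a + c + d + b)) fun l => KK (fun i => (m i : ℤ)) k (toYD l) := by
  induction k with
  | zero =>
    intro a ha c hc d hd b hb
    rw [g]
    split_ifs with h
    · obtain ⟨rfl, rfl, rfl, rfl⟩ : a = 0 ∧ c = 0 ∧ d = 0 ∧ b = 0 := by omega
      have e1 : vec 0 0 0 0 = [1] := rfl
      have e2 : pts (0 + 0 + 0 + 0) = [[]] := rfl
      have h0 : toYD [] = ⊥ := by
        rw [← card_eq_zero_iff', card_toYD ⟨by simp, by simp⟩]
        rfl
      rw [e1, e2, dot_cons, dot_nil, h0, KK_zero_bot]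
      rfl
    · symm
      have h1 : ∀ l ∈ pts (a + c + d + b), KK (fun i => (m i : ℤ)) 0 (toYD l) = 0 := by
        intro l hl
        rw [mem_pts (by omega) pa_eq_pts] at hl
        apply KK_zero_ne
        intro h2
        rw [← card_eq_zero_iff', card_toYD hl.1, hl.2] at h2
        exact h h2
      rw [dot_congr _ _ _ _ h1]
      generalize pts (a + c + d + b) = P
      generalize vec a c d b = v
      clear h h1
      induction v generalizing P with
      | nil => rfl
      | cons x v ih =>
        cases P with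
        | nil => simp [dot]
        | cons l P =>
          rw [dot_cons, ih]
          simp
  | succ k ih =>
    intro a ha c hc d hd b hb
    rw [g]
    have hKK : ∀ l, KK (fun i => (m i : ℤ)) (k + 1) (toYD l) =
        U (m k : ℤ) (KK (fun i => (m i : ℤ)) k) (toYD l) := fun l => rfl
    simp_rw [hKK]
    rcases Nat.lt_or_ge (a + c + d + b) (m k) with hm | hm
    · have h1 : ∀ l ∈ pts (a + c + d + b),
          U (m k : ℤ) (KK (fun i => (m i : ℤ)) k) (toYD l) = 0 := fun l hl =>
        U_toYD_zero (by omega) pa_eq_pts l hl _ hm _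
      rw [dot_congr _ _ _ _ h1]
      have h2 : ∀ (v : List ℤ) (P : List (List ℕ)), dot v P (fun _ => 0) = 0 := by
        intro v
        induction v with
        | nil => intro P; rfl
        | cons x v ih =>
          intro P
          cases P with
          | nil => simp [dot]
          | cons l P =>
            rw [dot_cons, ih]
            simp
      rw [h2]
      apply List.sum_eq_zero
      intro x hx
      rw [List.mem_map] at hx
      obtain ⟨s, hs, rfl⟩ := hx
      rw [mem_quads] at hs
      rw [if_neg]
      rintro ⟨-, -, -, h3⟩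
      omega
    · rw [dot_congr _ _ _ _ fun l hl =>
        U_toYD (by omega) pa_eq_pts nodup_pts l hl (m k) hm _]
      rw [dot_swap]
      rw [← dot_map _ _ (fun l => l) (fun l' => KK (fun i => (m i : ℤ)) k (toYD l')),
        List.map_id', ← lhs_eq (by omega) hm, chk_eq (hchk a ha c hc d hd b hb) hm,
        dot_rhs ha hc hd hb]
      congr 1
      refine List.map_congr_left fun s hs => ?_
      rw [mem_quads] at hs
      split_ifs with hok
      · rw [ih _ (by omega) _ (by omega) _ (by omega) _ (by omega)]
        have hj : s.1 + s.2.1 + s.2.2.1 + s.2.2.2 = m k := hok.2.2.2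
        have e : a - s.1 + (c - s.2.1) + (d - s.2.2.1) + (b - s.2.2.2) =
          a + c + d + b - m k := by omega
        rw [e]
      · rfl

end Pool.Agent.V8H2.SNP
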