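import Mathlib
import Pool.Agent.V8H2.SNP.Rec

/-! # The graph and its colourings -/

set_option autoImplicit false

namespace Pool.Agent.V8H2.SNP

open Finset

/-- The class of a vertex: `0` for the five leaves at the first pair, `1` for the first pair, `2`
for the second pair, `3` for the four leaves at the second pair. -/
def cls (v : Fin 13) : Fin 4 := if v.val < 5 then 0 else if v.val < 7 then 1 else
  if v.val < 9 then 2 else 3

/-- The graph: the vertices of consecutive classes are adjacent. -/
def Gr : SimpleGraph (Fin 13) where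
  Adj u v := (cls u).val + 1 = (cls v).val ∨ (cls v).val + 1 = (cls u).val
  symm := ⟨fun _ _ h => h.symm⟩
  loopless := ⟨fun v h => by omega⟩

instance : DecidableRel Gr.Adj := fun u v =>
  inferInstanceAs (Decidable ((cls u).val + 1 = (cls v).val ∨ (cls v).val + 1 = (cls u).val))

/-- The set is stable. -/
def Stable (S : Finset (Fin 13)) : Prop := ∀ u ∈ S, ∀ v ∈ S, ¬ Gr.Adj u v

/-- The colourings of the vertices in `W` with colours below `k` such that the colour `i` is used
`m i` times. -/
def Col (m : ℕ → ℕ) (k : ℕ) (W : Finset (Fin 13)) : Finset (Fin 13 → ℕ) :=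
  (Fintype.piFinset fun v => if v ∈ W then range k else {0}).filter fun κ =>
    (∀ u ∈ W, ∀ v ∈ W, Gr.Adj u v → κ u ≠ κ v) ∧ ∀ i < k, (W.filter fun v => κ v = i).card = m i

theorem mem_Col (m : ℕ → ℕ) (k : ℕ) (W : Finset (Fin 13)) (κ : Fin 13 → ℕ) :
    κ ∈ Col m k W ↔ (∀ v ∈ W, κ v < k) ∧ (∀ v ∉ W, κ v = 0) ∧
      (∀ u ∈ W, ∀ v ∈ W, Gr.Adj u v → κ u ≠ κ v) ∧
      ∀ i < k, (W.filter fun v => κ v = i).card = m i := by
  rw [Col, mem_filter, Fintype.mem_piFinset]
  constructor
  · rintro ⟨h1, h2, h3⟩
    refine ⟨fun v hv => ?_, fun v hv => ?_, h2, h3⟩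
    · have := h1 v
      rw [if_pos hv, mem_range] at this
      exact this
    · have := h1 v
      rw [if_neg hv, mem_singleton] at this
      exact this
  · rintro ⟨h1, h2, h3, h4⟩
    refine ⟨fun v => ?_, h3, h4⟩
    split_ifs with hv
    · exact mem_range.2 (h1 v hv)
    · exact mem_singleton.2 (h2 v hv)

open Classical in
theorem card_Col_succ (m : ℕ → ℕ) (k : ℕ) (W : Finset (Fin 13)) :
    (Col m (k + 1) W).card = ∑ S ∈ W.powerset with Stable S ∧ S.card = m k,
      (Col m k (W \ S)).card := by
  rw [Finset.card_eq_sum_card_fiberwise (f := fun κ => W.filter fun v => κ v = k)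
    (t := W.powerset.filter fun S => Stable S ∧ S.card = m k)]
  · refine Finset.sum_congr rfl fun S hS => ?_
    rw [mem_filter, mem_powerset] at hS
    obtain ⟨hSW, hSs, hSc⟩ := hS
    refine Finset.card_bij' (fun κ _ v => if v ∈ S then 0 else κ v)
      (fun κ _ v => if v ∈ S then k else κ v) ?_ ?_ ?_ ?_
    · intro κ hκ
      rw [mem_filter, mem_Col] at hκ
      obtain ⟨⟨h1, h2, h3, h4⟩, h5⟩ := hκ
      have h6 : ∀ v, v ∈ S ↔ v ∈ W ∧ κ v = k := fun v => by rw [← h5, mem_filter]
      rw [mem_Col]
      refine ⟨fun v hv => ?_, fun v hv => ?_, fun u hu v hv huv => ?_, fun i hi => ?_⟩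
      · rw [mem_sdiff] at hv
        rw [if_neg hv.2]
        have h7 := h1 v hv.1
        have h8 : κ v ≠ k := fun h => hv.2 ((h6 v).2 ⟨hv.1, h⟩)
        omega
      · split_ifs with hvS
        · rfl
        · refine h2 v fun hW => hv ?_
          exact mem_sdiff.2 ⟨hW, hvS⟩
      · rw [mem_sdiff] at hu hv
        rw [if_neg hu.2, if_neg hv.2]
        exact h3 u hu.1 v hv.1 huv
      · rw [← h4 i (by omega)]
        congr 1
        ext v
        rw [mem_filter, mem_filter, mem_sdiff]
        constructor
        · rintro ⟨⟨h7, h8⟩, h9⟩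
          rw [if_neg h8] at h9
          exact ⟨h7, h9⟩
        · rintro ⟨h7, h8⟩
          have h9 : v ∉ S := fun h => by
            have := ((h6 v).1 h).2
            omega
          exact ⟨⟨h7, h9⟩, by rw [if_neg h9]; exact h8⟩
    · intro κ hκ
      rw [mem_Col] at hκ
      obtain ⟨h1, h2, h3, h4⟩ := hκ
      have h6 : ∀ v, v ∈ S ↔ v ∈ W ∧ (if v ∈ S then k else κ v) = k := by
        intro v
        constructor
        · intro h
          exact ⟨hSW h, if_pos h⟩
        · rintro ⟨h7, h8⟩
          by_contra h9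
          rw [if_neg h9] at h8
          have := h1 v (mem_sdiff.2 ⟨h7, h9⟩)
          omega
      rw [mem_filter, mem_Col]
      refine ⟨⟨fun v hv => ?_, fun v hv => ?_, fun u hu v hv huv => ?_, fun i hi => ?_⟩, ?_⟩
      · split_ifs with h
        · exact Nat.lt_succ_self k
        · have := h1 v (mem_sdiff.2 ⟨hv, h⟩)
          omega
      · have h : v ∉ S := fun h => hv (hSW h)
        rw [if_neg h]
        exact h2 v fun h7 => hv (mem_sdiff.1 h7).1
      · by_cases hu' : u ∈ S
        · by_cases hv' : v ∈ S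
          · exact absurd huv (hSs u hu' v hv')
          · rw [if_pos hu', if_neg hv']
            have := h1 v (mem_sdiff.2 ⟨hv, hv'⟩)
            omega
        · by_cases hv' : v ∈ S
          · rw [if_neg hu', if_pos hv']
            have := h1 u (mem_sdiff.2 ⟨hu, hu'⟩)
            omega
          · rw [if_neg hu', if_neg hv']
            exact h3 u (mem_sdiff.2 ⟨hu, hu'⟩) v (mem_sdiff.2 ⟨hv, hv'⟩) huv
      · rcases Nat.lt_or_ge i k with hik | hik
        · rw [← h4 i hik]
          congr 1
          ext v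
          rw [mem_filter, mem_filter, mem_sdiff]
          constructor
          · rintro ⟨h7, h8⟩
            have h9 : v ∉ S := fun h => by
              rw [if_pos h] at h8
              omega
            rw [if_neg h9] at h8
            exact ⟨⟨h7, h9⟩, h8⟩
          · rintro ⟨⟨h7, h8⟩, h9⟩
            exact ⟨h7, by rw [if_neg h8]; exact h9⟩
        · obtain rfl : i = k := by omega
          rw [← hSc]
          congr 1
          ext v
          rw [mem_filter, ← h6]
      · ext v
        rw [mem_filter, ← h6]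
    · intro κ hκ
      rw [mem_filter, mem_Col] at hκ
      obtain ⟨⟨h1, h2, h3, h4⟩, h5⟩ := hκ
      funext v
      by_cases hv : v ∈ S
      · rw [if_pos hv]
        rw [← h5, mem_filter] at hv
        exact hv.2.symm
      · simp only [if_neg hv]
    · intro κ hκ
      rw [mem_Col] at hκ
      obtain ⟨h1, h2, h3, h4⟩ := hκ
      funext v
      by_cases hv : v ∈ S
      · rw [if_pos hv]
        exact (h2 v fun h => (mem_sdiff.1 h).2 hv).symm
      · simp only [if_neg hv]
  · intro κ hκ
    rw [mem_coe, mem_Col] at hκ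
    obtain ⟨h1, h2, h3, h4⟩ := hκ
    rw [mem_coe, mem_filter, mem_powerset]
    refine ⟨filter_subset _ _, fun u hu v hv huv => ?_, h4 k (Nat.lt_succ_self k)⟩
    rw [mem_filter] at hu hv
    exact h3 u hu.1 v hv.1 huv (hu.2.trans hv.2.symm)

/-- The vertices of `W` in the class `i`. -/
def cc (W : Finset (Fin 13)) (i : Fin 4) : Finset (Fin 13) := W.filter fun v => cls v = i

theorem sum_powerset_split (W : Finset (Fin 13)) (p : Fin 13 → Prop) [DecidablePred p]
    (F : Finset (Fin 13) → Finset (Fin 13) → ℤ) :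
    ∑ S ∈ W.powerset, F (S.filter p) (S.filter fun v => ¬ p v) =
      ∑ S ∈ (W.filter p).powerset, ∑ T ∈ (W.filter fun v => ¬ p v).powerset, F S T := by
  rw [← Finset.sum_product']
  refine Finset.sum_bij' (fun S _ => (S.filter p, S.filter fun v => ¬ p v))
    (fun x _ => x.1 ∪ x.2) ?_ ?_ ?_ ?_ ?_
  · intro S hS
    rw [mem_powerset] at hS
    rw [mem_product, mem_powerset, mem_powerset]
    exact ⟨filter_subset_filter _ hS, filter_subset_filter _ hS⟩
  · rintro ⟨S, T⟩ h
    rw [mem_product, mem_powerset, mem_powerset] at h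
    rw [mem_powerset]
    exact union_subset (h.1.trans (filter_subset _ _)) (h.2.trans (filter_subset _ _))
  · intro S _
    exact filter_union_filter_not_eq p S
  · rintro ⟨S, T⟩ h
    rw [mem_product, mem_powerset, mem_powerset] at h
    have h1 : ∀ v ∈ S, p v := fun v hv => (mem_filter.1 (h.1 hv)).2
    have h2 : ∀ v ∈ T, ¬ p v := fun v hv => (mem_filter.1 (h.2 hv)).2
    simp only [Prod.mk.injEq]
    constructor
    · ext v
      rw [mem_filter, mem_union]
      constructor
      · rintro ⟨h3 | h3, h4⟩
        · exact h3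
        · exact absurd h4 (h2 v h3)
      · exact fun h3 => ⟨Or.inl h3, h1 v h3⟩
    · ext v
      rw [mem_filter, mem_union]
      constructor
      · rintro ⟨h3 | h3, h4⟩
        · exact absurd (h1 v h3) h4
        · exact h3
      · exact fun h3 => ⟨Or.inr h3, h2 v h3⟩
  · intro S _
    rfl

theorem sum_powerset_classes (W : Finset (Fin 13)) (h : ℕ → ℕ → ℕ → ℕ → ℤ) :
    ∑ S ∈ W.powerset, h (cc S 0).card (cc S 1).card (cc S 2).card (cc S 3).card =
      ∑ s0 ∈ range ((cc W 0).card + 1), ∑ s1 ∈ range ((cc W 1).card + 1),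
        ∑ s2 ∈ range ((cc W 2).card + 1), ∑ s3 ∈ range ((cc W 3).card + 1),
          ((cc W 0).card.choose s0 * (cc W 1).card.choose s1 * (cc W 2).card.choose s2 *
            (cc W 3).card.choose s3 : ℤ) * h s0 s1 s2 s3 := by
  have e1 := sum_powerset_split W (fun v => cls v = 0) fun S T =>
    h S.card (cc T 1).card (cc T 2).card (cc T 3).card
  have hf : ∀ (S : Finset (Fin 13)) (i j : Fin 4), i ≠ j →
      cc (S.filter fun v => ¬ cls v = j) i = cc S i := by
    intro S i j hij
    unfold cc
    rw [filter_filter]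
    refine filter_congr fun v _ => ?_
    constructor
    · exact fun h => h.2
    · exact fun h => ⟨fun h' => hij (h.symm.trans h'), h⟩
  have e1' : ∑ S ∈ W.powerset, h (cc S 0).card (cc S 1).card (cc S 2).card (cc S 3).card =
      ∑ S ∈ (cc W 0).powerset, ∑ T ∈ (W.filter fun v => ¬ cls v = 0).powerset,
        h S.card (cc T 1).card (cc T 2).card (cc T 3).card := by
    rw [show cc W 0 = W.filter fun v => cls v = 0 from rfl, ← e1]
    refine sum_congr rfl fun S _ => ?_
    rw [hf S 1 0 (by decide), hf S 2 0 (by decide), hf S 3 0 (by decide)]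
    rfl
  rw [e1']
  have e2 : ∀ s0 : ℕ, ∑ T ∈ (W.filter fun v => ¬ cls v = 0).powerset,
      h s0 (cc T 1).card (cc T 2).card (cc T 3).card =
      ∑ s1 ∈ range ((cc W 1).card + 1),
        ∑ s2 ∈ range ((cc W 2).card + 1), ∑ s3 ∈ range ((cc W 3).card + 1),
          ((cc W 1).card.choose s1 * (cc W 2).card.choose s2 *
            (cc W 3).card.choose s3 : ℤ) * h s0 s1 s2 s3 := by
    intro s0
    set W1 := W.filter fun v => ¬ cls v = 0 with hW1
    have f1 := sum_powerset_split W1 (fun v => cls v = 1) fun S T =>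
      h s0 S.card (cc T 2).card (cc T 3).card
    have f1' : ∑ S ∈ W1.powerset, h s0 (cc S 1).card (cc S 2).card (cc S 3).card =
        ∑ S ∈ (cc W1 1).powerset, ∑ T ∈ (W1.filter fun v => ¬ cls v = 1).powerset,
          h s0 S.card (cc T 2).card (cc T 3).card := by
      rw [show cc W1 1 = W1.filter fun v => cls v = 1 from rfl, ← f1]
      refine sum_congr rfl fun S _ => ?_
      rw [hf S 2 1 (by decide), hf S 3 1 (by decide)]
      rfl
    rw [f1']
    have e3 : ∀ s1 : ℕ, ∑ T ∈ (W1.filter fun v => ¬ cls v = 1).powerset,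
        h s0 s1 (cc T 2).card (cc T 3).card =
        ∑ s2 ∈ range ((cc W 2).card + 1), ∑ s3 ∈ range ((cc W 3).card + 1),
            ((cc W 2).card.choose s2 * (cc W 3).card.choose s3 : ℤ) * h s0 s1 s2 s3 := by
      intro s1
      set W2 := W1.filter fun v => ¬ cls v = 1 with hW2
      have g1 := sum_powerset_split W2 (fun v => cls v = 2) fun S T =>
        h s0 s1 S.card (cc T 3).card
      have g1' : ∑ S ∈ W2.powerset, h s0 s1 (cc S 2).card (cc S 3).card =
          ∑ S ∈ (cc W2 2).powerset, ∑ T ∈ (W2.filter fun v => ¬ cls v = 2).powerset,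
            h s0 s1 S.card (cc T 3).card := by
        rw [show cc W2 2 = W2.filter fun v => cls v = 2 from rfl, ← g1]
        refine sum_congr rfl fun S _ => ?_
        rw [hf S 3 2 (by decide)]
        rfl
      rw [g1']
      have e4 : ∀ s2 : ℕ, ∑ T ∈ (W2.filter fun v => ¬ cls v = 2).powerset,
          h s0 s1 s2 (cc T 3).card =
          ∑ s3 ∈ range ((cc W 3).card + 1), ((cc W 3).card.choose s3 : ℤ) * h s0 s1 s2 s3 := by
        intro s2
        have hT : ∀ T ∈ (W2.filter fun v => ¬ cls v = 2).powerset, cc T 3 = T := by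
          intro T hT
          rw [mem_powerset] at hT
          unfold cc
          rw [filter_eq_self]
          intro v hv
          have h1 := hT hv
          rw [mem_filter, hW2, mem_filter, hW1, mem_filter] at h1
          have h2 : ∀ i : Fin 4, i ≠ 0 → i ≠ 1 → i ≠ 2 → i = 3 := by decide
          exact h2 _ h1.1.1.2 h1.1.2 h1.2
        have hT' : ∑ T ∈ (W2.filter fun v => ¬ cls v = 2).powerset, h s0 s1 s2 (cc T 3).card =
            ∑ T ∈ (W2.filter fun v => ¬ cls v = 2).powerset, h s0 s1 s2 T.card :=
          sum_congr rfl fun T h' => congrArg (fun U : Finset (Fin 13) => h s0 s1 s2 U.card) (hT T h')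
        rw [hT', Finset.sum_powerset_apply_card (f := fun s3 => h s0 s1 s2 s3)]
        have hc : W2.filter (fun v => ¬ cls v = 2) = cc W 3 := by
          rw [hW2, hW1]
          ext v
          rw [mem_filter, mem_filter, mem_filter, cc, mem_filter]
          have h2 : ∀ i : Fin 4, ((¬ i = 0) ∧ (¬ i = 1) ∧ (¬ i = 2)) ↔ i = 3 := by decide
          rw [← h2 (cls v)]
          constructor
          · rintro ⟨⟨⟨h4, h5⟩, h6⟩, h7⟩
            exact ⟨h4, h5, h6, h7⟩
          · rintro ⟨h4, h5, h6, h7⟩
            exact ⟨⟨⟨h4, h5⟩, h6⟩, h7⟩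
        rw [hc]
        refine sum_congr rfl fun s3 _ => ?_
        rw [nsmul_eq_mul]
      simp_rw [e4]
      rw [Finset.sum_powerset_apply_card (f := fun s2 => ∑ s3 ∈ range ((cc W 3).card + 1),
        ((cc W 3).card.choose s3 : ℤ) * h s0 s1 s2 s3)]
      have hc : cc W2 2 = cc W 2 := by
        rw [hW2, hf _ 2 1 (by decide), hW1, hf _ 2 0 (by decide)]
      rw [hc]
      refine sum_congr rfl fun s2 _ => ?_
      rw [nsmul_eq_mul, mul_sum]
      exact sum_congr rfl fun s3 _ => by ring
    simp_rw [e3]
    rw [Finset.sum_powerset_apply_card (f := fun s1 => ∑ s2 ∈ range ((cc W 2).card + 1),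
      ∑ s3 ∈ range ((cc W 3).card + 1),
      ((cc W 2).card.choose s2 * (cc W 3).card.choose s3 : ℤ) * h s0 s1 s2 s3)]
    have hc : cc W1 1 = cc W 1 := by rw [hW1, hf _ 1 0 (by decide)]
    rw [hc]
    refine sum_congr rfl fun s1 _ => ?_
    rw [nsmul_eq_mul, mul_sum]
    refine sum_congr rfl fun s2 _ => ?_
    rw [mul_sum]
    exact sum_congr rfl fun s3 _ => by ring
  simp_rw [e2]
  rw [Finset.sum_powerset_apply_card (f := fun s0 => ∑ s1 ∈ range ((cc W 1).card + 1),
    ∑ s2 ∈ range ((cc W 2).card + 1), ∑ s3 ∈ range ((cc W 3).card + 1),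
    ((cc W 1).card.choose s1 * (cc W 2).card.choose s2 * (cc W 3).card.choose s3 : ℤ) *
      h s0 s1 s2 s3)]
  refine sum_congr rfl fun s0 _ => ?_
  rw [nsmul_eq_mul, mul_sum]
  refine sum_congr rfl fun s1 _ => ?_
  rw [mul_sum]
  refine sum_congr rfl fun s2 _ => ?_
  rw [mul_sum]
  exact sum_congr rfl fun s3 _ => by ring

theorem card_classes (S : Finset (Fin 13)) :
    (cc S 0).card + (cc S 1).card + (cc S 2).card + (cc S 3).card = S.card := by
  have h := Finset.card_eq_sum_card_fiberwise (s := S) (f := cls) (t := univ)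
    (fun v _ => by simp)
  rw [h, Fin.sum_univ_four]
  rfl

theorem stable_iff (S : Finset (Fin 13)) : Stable S ↔
    (cc S 0).card * (cc S 1).card = 0 ∧ (cc S 1).card * (cc S 2).card = 0 ∧
      (cc S 2).card * (cc S 3).card = 0 := by
  have key : ∀ i j : Fin 4, (cc S i).card * (cc S j).card = 0 ↔
      ∀ u ∈ S, ∀ v ∈ S, cls u = i → cls v ≠ j := by
    intro i j
    rw [Nat.mul_eq_zero, card_eq_zero, card_eq_zero, cc, cc, filter_eq_empty_iff,
      filter_eq_empty_iff]
    constructor
    · rintro (h | h) u hu v hv h1 h2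
      · exact h hu h1
      · exact h hv h2
    · intro h
      by_contra hne
      rw [not_or] at hne
      push Not at hne
      obtain ⟨⟨u, hu, h1⟩, ⟨v, hv, h2⟩⟩ := hne
      exact h u hu v hv h1 h2
  rw [key, key, key]
  constructor
  · intro h
    refine ⟨fun u hu v hv h1 h2 => h u hu v hv (Or.inl ?_),
      fun u hu v hv h1 h2 => h u hu v hv (Or.inl ?_),
      fun u hu v hv h1 h2 => h u hu v hv (Or.inl ?_)⟩ <;> rw [h1, h2] <;> rfl
  · rintro ⟨h1, h2, h3⟩ u hu v hv huv
    have aux : ∀ i j : Fin 4, i.val + 1 = j.val → (i = 0 ∧ j = 1) ∨ (i = 1 ∧ j = 2) ∨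
        (i = 2 ∧ j = 3) := by decide
    rcases huv with h | h
    · rcases aux _ _ h with ⟨h4, h5⟩ | ⟨h4, h5⟩ | ⟨h4, h5⟩
      · exact h1 u hu v hv h4 h5
      · exact h2 u hu v hv h4 h5
      · exact h3 u hu v hv h4 h5
    · rcases aux _ _ h with ⟨h4, h5⟩ | ⟨h4, h5⟩ | ⟨h4, h5⟩
      · exact h1 v hv u hu h4 h5
      · exact h2 v hv u hu h4 h5
      · exact h3 v hv u hu h4 h5

theorem sum_flatMap' {α β : Type} (L : List α) (f : α → List β) (t : β → ℤ) :
    ((L.flatMap f).map t).sum = (L.map fun x => ((f x).map t).sum).sum := by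
  induction L with
  | nil => rfl
  | cons x L ih => rw [List.flatMap_cons, List.map_append, List.sum_append, ih, List.map_cons,
      List.sum_cons]

theorem sum_range_list (n : ℕ) (f : ℕ → ℤ) : ((List.range n).map f).sum = ∑ i ∈ range n, f i := by
  induction n with
  | zero => rfl
  | succ n ih => rw [List.range_succ, List.map_append, List.sum_append, ih, sum_range_succ]; simp

theorem sum_quads (a c d b : ℕ) (t : ℕ × ℕ × ℕ × ℕ → ℤ) :
    ((quads a c d b).map t).sum = ∑ s0 ∈ range (a + 1), ∑ s1 ∈ range (c + 1),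
      ∑ s2 ∈ range (d + 1), ∑ s3 ∈ range (b + 1), t (s0, s1, s2, s3) := by
  rw [quads, sum_flatMap', sum_range_list]
  refine sum_congr rfl fun s0 _ => ?_
  rw [sum_flatMap', sum_range_list]
  refine sum_congr rfl fun s1 _ => ?_
  rw [sum_flatMap', sum_range_list]
  refine sum_congr rfl fun s2 _ => ?_
  rw [List.map_map, sum_range_list]
  rfl

/-- The numbers of colourings. -/
theorem card_Col (m : ℕ → ℕ) (k : ℕ) : ∀ W : Finset (Fin 13),
    ((Col m k W).card : ℤ) = g m k (cc W 0).card (cc W 1).card (cc W 2).card (cc W 3).card := by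
  classical
  induction k with
  | zero =>
    intro W
    rw [g, card_classes]
    by_cases hW : W = ∅
    · subst hW
      rw [card_empty, if_pos rfl]
      have : Col m 0 ∅ = {fun _ => 0} := by
        ext κ
        rw [mem_Col, mem_singleton]
        constructor
        · rintro ⟨-, h, -⟩
          funext v
          exact h v (notMem_empty v)
        · rintro rfl
          simp
      rw [this, card_singleton]
      rfl
    · rw [if_neg (by rwa [card_eq_zero])]
      obtain ⟨v, hv⟩ := nonempty_iff_ne_empty.2 hW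
      have : Col m 0 W = ∅ := by
        rw [eq_empty_iff_forall_notMem]
        intro κ hκ
        rw [mem_Col] at hκ
        exact absurd (hκ.1 v hv) (Nat.not_lt_zero _)
      rw [this, card_empty]
      rfl
  | succ k ih =>
    intro W
    rw [card_Col_succ, g, sum_quads]
    push_cast
    rw [sum_filter]
    have e := sum_powerset_classes W fun s0 s1 s2 s3 =>
      if okj (m k) (s0, s1, s2, s3) then g m k ((cc W 0).card - s0) ((cc W 1).card - s1)
        ((cc W 2).card - s2) ((cc W 3).card - s3) else 0
    refine (Eq.trans ?_ e).trans ?_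
    · refine sum_congr rfl fun S hS => ?_
      rw [mem_powerset] at hS
      have hiff : (Stable S ∧ S.card = m k) ↔
          okj (m k) ((cc S 0).card, (cc S 1).card, (cc S 2).card, (cc S 3).card) := by
        rw [okj, stable_iff]
        simp only
        rw [card_classes]
        tauto
      by_cases h : Stable S ∧ S.card = m k
      · rw [if_pos h, if_pos (hiff.1 h), ih]
        have hc : ∀ i, (cc (W \ S) i).card = (cc W i).card - (cc S i).card := by
          intro i
          have h1 : cc (W \ S) i = cc W i \ cc S i := by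
            ext v
            simp only [cc, mem_filter, mem_sdiff]
            tauto
          rw [h1, card_sdiff_of_subset (show cc S i ⊆ cc W i from filter_subset_filter _ hS)]
        rw [hc, hc, hc, hc]
      · rw [if_neg h, if_neg (fun h' => h (hiff.2 h'))]
    · refine sum_congr rfl fun s0 _ => sum_congr rfl fun s1 _ => sum_congr rfl fun s2 _ =>
        sum_congr rfl fun s3 _ => ?_
      simp only [mult]
      split_ifs
      · push_cast
        ring
      · rw [mul_zero]

end Pool.Agent.V8H2.SNP
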