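import Mathlib
import Pool.Agent.V8H2.SNP.Graph
import Pool.Agent.V8H2.SNP.ChkA0
import Pool.Agent.V8H2.SNP.ChkA1
import Pool.Agent.V8H2.SNP.ChkA2
import Pool.Agent.V8H2.SNP.ChkA3
import Pool.Agent.V8H2.SNP.ChkA4
import Pool.Agent.V8H2.SNP.ChkA5

/-! # The chromatic symmetric polynomials of the graph are Schur-positive -/

set_option autoImplicit false

namespace Pool.Agent.V8H2.SNP

open Finset Pool.Agent.R850.FG

theorem chk_all : ∀ a ≤ 5, ∀ c ≤ 2, ∀ d ≤ 2, ∀ b ≤ 4, chk a c d b = true := by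
  have key : ∀ a ≤ 5, chkA a = true := by
    intro a ha
    obtain rfl | rfl | rfl | rfl | rfl | rfl : a = 0 ∨ a = 1 ∨ a = 2 ∨ a = 3 ∨ a = 4 ∨ a = 5 := by
      omega
    · exact chkA_0
    · exact chkA_1
    · exact chkA_2
    · exact chkA_3
    · exact chkA_4
    · exact chkA_5
  intro a ha c hc d hd b hb
  have h1 := key a ha
  rw [chkA, List.all_eq_true] at h1
  have h2 := h1 c (List.mem_range.2 (by omega))
  rw [List.all_eq_true] at h2
  have h3 := h2 d (List.mem_range.2 (by omega))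
  rw [List.all_eq_true] at h3
  exact h3 b (List.mem_range.2 (by omega))

/-- The chromatic symmetric polynomial in `k` variables. -/
noncomputable def chrom (k : ℕ) : MvPolynomial ℕ ℤ :=
  ∑ᶠ κ : {κ : Fin 13 → Fin k // ∀ u v, Gr.Adj u v → κ u ≠ κ v},
    ∏ v, (MvPolynomial.X ((κ.1 v : ℕ)) : MvPolynomial ℕ ℤ)

/-- The Schur polynomial in `k` variables. -/
noncomputable def schurK (k : ℕ) (μ : YoungDiagram) : MvPolynomial ℕ ℤ :=
  ∑ᶠ T : {T : SemistandardYoungTableau μ // ∀ p ∈ μ.cells, T p.1 p.2 < k},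
    ∏ p ∈ μ.cells, (MvPolynomial.X (T.1 p.1 p.2) : MvPolynomial ℕ ℤ)

theorem prod_X {ι : Type} (s : Finset ι) (f : ι → ℕ) :
    ∏ v ∈ s, (MvPolynomial.X (f v) : MvPolynomial ℕ ℤ) =
      MvPolynomial.monomial (∑ v ∈ s, Finsupp.single (f v) 1) 1 := by
  rw [MvPolynomial.monomial_sum_one]
  rfl

theorem cont_apply {ι : Type} (s : Finset ι) (f : ι → ℕ) (i : ℕ) :
    (∑ v ∈ s, (Finsupp.single (f v) 1 : ℕ →₀ ℕ)) i = (s.filter fun v => f v = i).card := by
  classical
  rw [Finsupp.finsetSum_apply, Finset.card_filter]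
  refine Finset.sum_congr rfl fun c _ => ?_
  rw [Finsupp.single_apply]

theorem coeff_chrom (k : ℕ) (m : ℕ →₀ ℕ) (hm : ∀ i, k ≤ i → m i = 0) :
    (chrom k).coeff m = ((Col m k univ).card : ℤ) := by
  classical
  rw [chrom, finsum_eq_sum_of_fintype, MvPolynomial.coeff_sum]
  simp_rw [prod_X, MvPolynomial.coeff_monomial]
  rw [← Finset.natCast_card_filter]
  congr 1
  refine Finset.card_bij (fun κ _ v => (κ.1 v : ℕ)) ?_ ?_ ?_
  · intro κ hκ
    rw [mem_filter] at hκ
    rw [mem_Col]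
    refine ⟨fun v _ => (κ.1 v).2, fun v hv => absurd (mem_univ v) hv, fun u _ v _ huv h => ?_,
      fun i hi => ?_⟩
    · exact κ.2 u v huv (Fin.ext h)
    · rw [← hκ.2, cont_apply]
  · intro κ _ κ' _ h
    apply Subtype.ext
    funext v
    exact Fin.ext (congrFun h v)
  · intro κ hκ
    rw [mem_Col] at hκ
    obtain ⟨h1, -, h3, h4⟩ := hκ
    refine ⟨⟨fun v => ⟨κ v, h1 v (mem_univ v)⟩, fun u v huv h => h3 u (mem_univ u) v (mem_univ v)
      huv (congrArg Fin.val h)⟩, ?_, rfl⟩
    rw [mem_filter]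
    refine ⟨mem_univ _, ?_⟩
    ext i
    rw [cont_apply]
    rcases Nat.lt_or_ge i k with hi | hi
    · exact h4 i hi
    · rw [hm i hi, card_eq_zero, filter_eq_empty_iff]
      intro v _ hv
      have := h1 v (mem_univ v)
      simp only at hv
      omega

theorem coeff_chrom_zero (k : ℕ) (m : ℕ →₀ ℕ) (hm : ¬ ∀ i, k ≤ i → m i = 0) :
    (chrom k).coeff m = 0 := by
  classical
  rw [chrom, finsum_eq_sum_of_fintype, MvPolynomial.coeff_sum]
  refine Finset.sum_eq_zero fun κ _ => ?_
  rw [prod_X, MvPolynomial.coeff_monomial, if_neg]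
  intro h
  apply hm
  intro i hi
  rw [← h, cont_apply, card_eq_zero, filter_eq_empty_iff]
  intro v _ hv
  have := (κ.1 v).2
  omega

instance finite_tab (k : ℕ) (μ : YoungDiagram) :
    Finite {T : SemistandardYoungTableau μ // ∀ p ∈ μ.cells, T p.1 p.2 < k} := by
  classical
  refine Finite.of_injective (β := μ.cells → Fin k)
    (fun T p => ⟨T.1 p.1.1 p.1.2, T.2 p.1 p.2⟩) ?_
  intro T T' h
  apply Subtype.ext
  ext i j
  by_cases hc : (i, j) ∈ μ
  · have := congrArg Fin.val (congrFun h ⟨(i, j), by rwa [YoungDiagram.mem_cells]⟩)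
    exact this
  · rw [T.1.zeros hc, T'.1.zeros hc]

theorem coeff_schurK (k : ℕ) (μ : YoungDiagram) (m : ℕ →₀ ℕ) (hm : ∀ i, k ≤ i → m i = 0) :
    (schurK k μ).coeff m = KK (fun i => (m i : ℤ)) k μ := by
  classical
  have : Fintype {T : SemistandardYoungTableau μ // ∀ p ∈ μ.cells, T p.1 p.2 < k} :=
    Fintype.ofFinite _
  rw [← (card_tab k μ m hm).2]
  rw [schurK, finsum_eq_sum_of_fintype, MvPolynomial.coeff_sum]
  simp_rw [prod_X, MvPolynomial.coeff_monomial]
  rw [← Finset.natCast_card_filter, ← Fintype.card_subtype, ← Nat.card_eq_fintype_card]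
  congr 1
  refine Nat.card_congr
    { toFun := fun T => ⟨T.1.1, T.2⟩
      invFun := fun T => ⟨⟨T.1, fun p hp => ctab_lt T.1 m T.2 k hm hp⟩, T.2⟩
      left_inv := fun T => rfl
      right_inv := fun T => rfl }

theorem coeff_schurK_zero (k : ℕ) (μ : YoungDiagram) (m : ℕ →₀ ℕ)
    (hm : ¬ ∀ i, k ≤ i → m i = 0) : (schurK k μ).coeff m = 0 := by
  classical
  have : Fintype {T : SemistandardYoungTableau μ // ∀ p ∈ μ.cells, T p.1 p.2 < k} :=
    Fintype.ofFinite _
  rw [schurK, finsum_eq_sum_of_fintype, MvPolynomial.coeff_sum]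
  refine Finset.sum_eq_zero fun T _ => ?_
  rw [prod_X, MvPolynomial.coeff_monomial, if_neg]
  intro h
  apply hm
  intro i hi
  rw [← h, cont_apply, card_eq_zero, filter_eq_empty_iff]
  intro p hp hv
  have := T.2 p hp
  omega

/-- The combination of diagrams. -/
noncomputable def csum : List ℤ → List (List ℕ) → (YoungDiagram →₀ ℕ)
  | c :: v, l :: P => Finsupp.single (toYD l) c.toNat + csum v P
  | _, _ => 0

theorem csum_sum (v : List ℤ) (P : List (List ℕ)) (hv : ∀ c ∈ v, 0 ≤ c)
    (s : YoungDiagram → MvPolynomial ℕ ℤ) (m : ℕ →₀ ℕ) :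
    ((csum v P).sum fun μ a => a • s μ).coeff m = dot v P fun l => (s (toYD l)).coeff m := by
  classical
  induction v generalizing P with
  | nil => simp [csum, dot]
  | cons c v ih =>
    cases P with
    | nil => simp [csum, dot]
    | cons l P =>
      have e1 : (Finsupp.single (toYD l) c.toNat).sum (fun μ a => a • s μ) =
          c.toNat • s (toYD l) := Finsupp.sum_single_index (zero_smul ℕ _)
      rw [csum, Finsupp.sum_add_index' (fun μ => zero_smul ℕ (s μ)) (fun μ a b => add_smul a b _),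
        MvPolynomial.coeff_add, ih P fun c' hc' => hv c' (by simp [hc']), dot_cons,
        e1, MvPolynomial.coeff_smul, nsmul_eq_mul]
      congr 2
      exact Int.toNat_of_nonneg (hv c (by simp))

theorem vec_top_nonneg : ∀ c ∈ vec 5 2 2 4, 0 ≤ c := by
  have h := vec_nonneg
  rw [List.all_eq_true] at h
  intro c hc
  simpa using h c hc

theorem cc_univ : (cc univ 0).card = 5 ∧ (cc univ 1).card = 2 ∧ (cc univ 2).card = 2 ∧
    (cc univ 3).card = 4 := by
  refine ⟨?_, ?_, ?_, ?_⟩ <;> decide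

/-- The chromatic symmetric polynomial is a nonnegative combination of Schur polynomials. -/
theorem chrom_eq (k : ℕ) : chrom k = (csum (vec 5 2 2 4) (pts 13)).sum fun μ a => a • schurK k μ := by
  ext m
  rw [csum_sum _ _ vec_top_nonneg]
  by_cases hm : ∀ i, k ≤ i → m i = 0
  · rw [coeff_chrom k m hm, card_Col, cc_univ.1, cc_univ.2.1, cc_univ.2.2.1, cc_univ.2.2.2,
      g_eq chk_all m k 5 le_rfl 2 le_rfl 2 le_rfl 4 le_rfl]
    exact dot_congr _ _ _ _ fun l _ => (coeff_schurK k _ m hm).symm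
  · rw [coeff_chrom_zero k m hm, dot_congr _ _ _ (fun _ => 0) fun l _ =>
      coeff_schurK_zero k _ m hm]
    have h2 : ∀ (v : List ℤ) (P : List (List ℕ)), dot v P (fun _ => 0) = 0 := by
      intro v
      induction v with
      | nil => intro P; rfl
      | cons x v ih =>
        intro P
        cases P with
        | nil => simp [dot]
        | cons l P =>
          rw [dot_cons, ih]
          simp
    rw [h2]

/-- The numbers of colourings with three colours. -/
def gg (x y z : ℕ) : ℤ := g (fun i => if i = 0 then x else if i = 1 then y else z) 3 5 2 2 4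

set_option maxRecDepth 100000 in
theorem gg_922 : gg 9 2 2 ≠ 0 := by decide +kernel

set_option maxRecDepth 100000 in
theorem gg_760 : gg 7 6 0 ≠ 0 := by decide +kernel

set_option maxRecDepth 100000 in
theorem gg_841 : gg 8 4 1 = 0 := by decide +kernel

/-- The exponent `(x, y, z)`. -/
noncomputable def ex (x y z : ℕ) : ℕ →₀ ℕ :=
  Finsupp.single 0 x + Finsupp.single 1 y + Finsupp.single 2 z

theorem ex_apply (x y z i : ℕ) : ex x y z i =
    if i = 0 then x else if i = 1 then y else if i = 2 then z else 0 := by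
  rw [ex, Finsupp.add_apply, Finsupp.add_apply, Finsupp.single_apply, Finsupp.single_apply,
    Finsupp.single_apply]
  rcases i with _ | _ | _ | i
  · simp
  · simp
  · simp
  · simp

theorem g_congr (m m' : ℕ → ℕ) (k : ℕ) (h : ∀ i < k, m i = m' i) (a c d b : ℕ) :
    g m k a c d b = g m' k a c d b := by
  induction k generalizing a c d b with
  | zero => rfl
  | succ k ih =>
    rw [g, g, h k (Nat.lt_succ_self k)]
    congr 1
    refine List.map_congr_left fun s _ => ?_
    rw [ih fun i hi => h i (by omega)]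

theorem coeff_ex (x y z : ℕ) : (chrom 3).coeff (ex x y z) = gg x y z := by
  rw [coeff_chrom, card_Col, cc_univ.1, cc_univ.2.1, cc_univ.2.2.1, cc_univ.2.2.2, gg]
  · apply g_congr
    intro i hi
    rw [ex_apply]
    obtain rfl | rfl | rfl : i = 0 ∨ i = 1 ∨ i = 2 := by omega
    · simp
    · simp
    · simp
  · intro i hi
    rw [ex_apply, if_neg (by omega), if_neg (by omega), if_neg (by omega)]

theorem mem_supp_922 : ex 9 2 2 ∈ (chrom 3).support := by
  rw [MvPolynomial.mem_support_iff, coeff_ex]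
  exact gg_922

theorem mem_supp_760 : ex 7 6 0 ∈ (chrom 3).support := by
  rw [MvPolynomial.mem_support_iff, coeff_ex]
  exact gg_760

theorem notMem_supp_841 : ex 8 4 1 ∉ (chrom 3).support := by
  rw [MvPolynomial.mem_support_iff, coeff_ex, gg_841]
  exact fun h => h rfl

theorem mem_hull : (fun i : ℕ => (ex 8 4 1 i : ℝ)) ∈ convexHull ℝ
    ((fun β : ℕ →₀ ℕ => (fun i : ℕ => (β i : ℝ))) '' ((chrom 3).support : Set (ℕ →₀ ℕ))) := by
  have h1 := subset_convexHull ℝ ((fun β : ℕ →₀ ℕ => (fun i : ℕ => (β i : ℝ))) ''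
    ((chrom 3).support : Set (ℕ →₀ ℕ))) (Set.mem_image_of_mem _ (mem_coe.2 mem_supp_922))
  have h2 := subset_convexHull ℝ ((fun β : ℕ →₀ ℕ => (fun i : ℕ => (β i : ℝ))) ''
    ((chrom 3).support : Set (ℕ →₀ ℕ))) (Set.mem_image_of_mem _ (mem_coe.2 mem_supp_760))
  have h3 := (convex_convexHull ℝ ((fun β : ℕ →₀ ℕ => (fun i : ℕ => (β i : ℝ))) ''
    ((chrom 3).support : Set (ℕ →₀ ℕ)))) h1 h2 (a := 1 / 2) (b := 1 / 2) (by norm_num)
    (by norm_num) (by norm_num)
  convert h3 using 1
  funext i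
  rw [Pi.add_apply, Pi.smul_apply, Pi.smul_apply, smul_eq_mul, smul_eq_mul, ex_apply, ex_apply,
    ex_apply]
  split_ifs <;> norm_num

end Pool.Agent.V8H2.SNP
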